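import Pool.Agent.Q68.ESB.LowbD

/-!
# Project ESB (helper161), job LOWB: many subgroups of order `2^m`
-/

set_option autoImplicit false

namespace Pool.Agent.Q68.ESB.Lw

open NumberField IsDedekindDomain Finset Pool.Agent.Q161.ESB

open scoped Classical

section

variable {F : Type} [Field F] [NumberField F] {m : ℕ}

/-- the index set: the nonempty subsets of `Fin m` -/
abbrev Ix (m : ℕ) : Type := {T : Finset (Fin m) // T.Nonempty}

theorem card_Ix (m : ℕ) : Fintype.card (Ix m) = 2 ^ m - 1 := by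
  have h1 : Fintype.card (Ix m) = Fintype.card (Finset (Fin m)) - 1 := by
    rw [← Fintype.card_subtype_eq (∅ : Finset (Fin m)), ← Fintype.card_subtype_compl]
    refine Fintype.card_congr (Equiv.subtypeEquivRight fun T => ?_)
    exact Finset.nonempty_iff_ne_empty
  rw [h1, Fintype.card_finset, Fintype.card_fin]

/-- the basis given by a tuple of supports -/
noncomputable def bb (r : Finset (HeightOneSpectrum (𝓞 F)) → F)
    (τ : Ix m → Finset (HeightOneSpectrum (𝓞 F))) (j : Fin m) : F :=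
  ∏ T : Ix m, if j ∈ T.1 then r (τ T) else 1

/-- the supports of the products -/
noncomputable def sS (τ : Ix m → Finset (HeightOneSpectrum (𝓞 F))) (S : Finset (Fin m)) :
    Finset (HeightOneSpectrum (𝓞 F)) :=
  Finset.univ.biUnion (fun T : Ix m => if Odd (S ∩ T.1).card then τ T else ∅)

omit [NumberField F] in
theorem mem_sS {τ : Ix m → Finset (HeightOneSpectrum (𝓞 F))} {S : Finset (Fin m)}
    {v : HeightOneSpectrum (𝓞 F)} : v ∈ sS τ S ↔ ∃ T : Ix m, Odd (S ∩ T.1).card ∧ v ∈ τ T := by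
  unfold sS
  rw [Finset.mem_biUnion]
  constructor
  · rintro ⟨T, -, hT⟩
    by_cases h : Odd (S ∩ T.1).card
    · rw [if_pos h] at hT
      exact ⟨T, h, hT⟩
    · rw [if_neg h] at hT
      exact absurd hT (Finset.notMem_empty _)
  · rintro ⟨T, h, hT⟩
    refine ⟨T, Finset.mem_univ _, ?_⟩
    rw [if_pos h]
    exact hT

/-- pairwise disjoint -/
def Dj (τ : Ix m → Finset (HeightOneSpectrum (𝓞 F))) : Prop := ∀ i j, i ≠ j → Disjoint (τ i) (τ j)

omit [NumberField F] in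
theorem Dj.eq {τ : Ix m → Finset (HeightOneSpectrum (𝓞 F))} (h : Dj τ) {v : HeightOneSpectrum (𝓞 F)}
    {T T' : Ix m} (hT : v ∈ τ T) (hT' : v ∈ τ T') : T = T' := by
  by_contra hne
  exact Finset.disjoint_left.1 (h T T' hne) hT hT'

omit [NumberField F] in
theorem mem_sS_iff {τ : Ix m → Finset (HeightOneSpectrum (𝓞 F))} (h : Dj τ) {S : Finset (Fin m)}
    {v : HeightOneSpectrum (𝓞 F)} {T : Ix m} (hT : v ∈ τ T) : v ∈ sS τ S ↔ Odd (S ∩ T.1).card := by
  rw [mem_sS]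
  constructor
  · rintro ⟨T', h1, h2⟩
    rw [h.eq hT h2]
    exact h1
  · intro h1
    exact ⟨T, h1, hT⟩

theorem odd_sing (j : Fin m) (T : Finset (Fin m)) : Odd (({j} : Finset (Fin m)) ∩ T).card ↔ j ∈ T := by
  by_cases h : j ∈ T
  · rw [Finset.singleton_inter_of_mem h, Finset.card_singleton]
    exact ⟨fun _ => h, fun _ => odd_one⟩
  · rw [Finset.singleton_inter_of_notMem h, Finset.card_empty]
    exact ⟨fun h1 => absurd h1 (by decide), fun h1 => absurd h1 h⟩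

theorem odd_sing' (j : Fin m) (S : Finset (Fin m)) : Odd (S ∩ ({j} : Finset (Fin m))).card ↔ j ∈ S := by
  rw [Finset.inter_comm]
  exact odd_sing j S

/-- a tuple is determined by the supports of the elements of the basis -/
theorem det {τ τ' : Ix m → Finset (HeightOneSpectrum (𝓞 F))} (h : Dj τ) (h' : Dj τ')
    (he : ∀ j, sS τ {j} = sS τ' {j}) : τ = τ' := by
  have key : ∀ (τ τ' : Ix m → Finset (HeightOneSpectrum (𝓞 F))), Dj τ → Dj τ' →
      (∀ j, sS τ {j} = sS τ' {j}) → ∀ T v, v ∈ τ T → v ∈ τ' T := by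
    intro τ τ' h h' he T v hv
    obtain ⟨j, hj⟩ := T.2
    have h1 : v ∈ sS τ' {j} := by
      rw [← he j, mem_sS_iff h hv, odd_sing]
      exact hj
    obtain ⟨T', -, hT'⟩ := mem_sS.1 h1
    have h2 : T = T' := by
      apply Subtype.ext
      ext i
      rw [← odd_sing i T.1, ← mem_sS_iff h hv, he i, mem_sS_iff h' hT', odd_sing]
    rw [h2]
    exact hT'
  funext T
  ext v
  exact ⟨key τ τ' h h' he T v, key τ' τ h' h (fun j => (he j).symm) T v⟩

/-- the supports of the elements of the subgroup -/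
noncomputable def EE (τ : Ix m → Finset (HeightOneSpectrum (𝓞 F))) :
    Finset (Finset (HeightOneSpectrum (𝓞 F))) := Finset.univ.image (sS τ)

theorem card_EE {τ : Ix m → Finset (HeightOneSpectrum (𝓞 F))} (h : Dj τ) (hne : ∀ T, (τ T).Nonempty) :
    (EE τ).card = 2 ^ m := by
  unfold EE
  rw [Finset.card_image_of_injective, Finset.card_univ, Fintype.card_finset, Fintype.card_fin]
  intro S S' hSS
  ext j
  obtain ⟨v, hv⟩ := hne ⟨{j}, Finset.singleton_nonempty j⟩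
  have h1 := mem_sS_iff h hv (S := S)
  have h2 := mem_sS_iff h hv (S := S')
  simp only at h1 h2 hSS
  rw [odd_sing'] at h1 h2
  rw [← h1, ← h2, hSS]

variable {r : Finset (HeightOneSpectrum (𝓞 F)) → F} (hr0 : ∀ A, r A ≠ 0)

include hr0 in
theorem bb_ne (τ : Ix m → Finset (HeightOneSpectrum (𝓞 F))) (j : Fin m) : bb r τ j ≠ 0 := by
  unfold bb
  refine Finset.prod_ne_zero_iff.2 fun T _ => ?_
  split_ifs
  · exact hr0 _
  · exact one_ne_zero

include hr0 in
theorem par_bb (τ : Ix m → Finset (HeightOneSpectrum (𝓞 F))) (v : HeightOneSpectrum (𝓞 F))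
    (hr : ∀ T, ∀ v, OddAt v (r (τ T)) ↔ v ∈ τ T) (S : Finset (Fin m)) :
    par v (∏ j ∈ S, bb r τ j) = ∑ T : Ix m, if v ∈ τ T then (((S ∩ T.1).card : ℕ) : ZMod 2) else 0 := by
  rw [par_prod v S _ (bb_ne hr0 τ)]
  have h1 : ∀ j ∈ S, par v (bb r τ j) = ∑ T : Ix m, if v ∈ τ T then (if j ∈ T.1 then 1 else 0) else 0 := by
    intro j _
    unfold bb
    rw [par_prod]
    · refine Finset.sum_congr rfl fun T _ => ?_
      by_cases hv : v ∈ τ T
      · rw [if_pos hv]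
        split_ifs
        · exact (oddAt_iff (hr0 _)).1 ((hr T v).2 hv)
        · exact par_one v
      · rw [if_neg hv]
        split_ifs
        · rcases par_cases v (r (τ T)) with h | h
          · exact h
          · exact absurd ((hr T v).1 ((oddAt_iff (hr0 _)).2 h)) hv
        · exact par_one v
    · intro T
      split_ifs
      · exact hr0 _
      · exact one_ne_zero
  rw [Finset.sum_congr rfl h1, Finset.sum_comm]
  refine Finset.sum_congr rfl fun T _ => ?_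
  split_ifs with hv
  · rw [Finset.sum_ite_mem, Finset.sum_const, nsmul_eq_mul, mul_one]
  · exact Finset.sum_const_zero

include hr0 in
theorem oddAt_bb {τ : Ix m → Finset (HeightOneSpectrum (𝓞 F))} (h : Dj τ) (v : HeightOneSpectrum (𝓞 F))
    (hr : ∀ T, ∀ v, OddAt v (r (τ T)) ↔ v ∈ τ T) (S : Finset (Fin m)) :
    OddAt v (∏ j ∈ S, bb r τ j) ↔ v ∈ sS τ S := by
  rw [oddAt_iff (Finset.prod_ne_zero_iff.2 fun j _ => bb_ne hr0 τ j), par_bb hr0 τ v hr S]
  by_cases hv : ∃ T, v ∈ τ T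
  · obtain ⟨T, hT⟩ := hv
    rw [mem_sS_iff h hT, Finset.sum_eq_single T]
    · rw [if_pos hT, ZMod.natCast_eq_one_iff_odd]
    · intro T' _ hne
      rw [if_neg]
      intro hT'
      exact hne (h.eq hT' hT)
    · intro h1
      exact absurd (Finset.mem_univ _) h1
  · have h1 : ∀ T : Ix m, v ∉ τ T := fun T hT => hv ⟨T, hT⟩
    rw [Finset.sum_eq_zero (fun T _ => if_neg (h1 T))]
    constructor
    · intro h2
      exact absurd h2 (by decide)
    · intro h2
      obtain ⟨T, -, hT⟩ := mem_sS.1 h2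
      exact absurd hT (h1 T)

include hr0 in
theorem indep {τ : Ix m → Finset (HeightOneSpectrum (𝓞 F))} (h : Dj τ) (hne : ∀ T, (τ T).Nonempty)
    (hr : ∀ T, ∀ v, OddAt v (r (τ T)) ↔ v ∈ τ T) : Indep (bb r τ) := by
  refine ⟨bb_ne hr0 τ, ?_⟩
  intro S hS hsq
  obtain ⟨j, hj⟩ := hS
  obtain ⟨v, hv⟩ := hne ⟨{j}, Finset.singleton_nonempty j⟩
  have h0 : ∏ j ∈ S, bb r τ j ≠ 0 := Finset.prod_ne_zero_iff.2 fun j _ => bb_ne hr0 τ j
  have h1 : OddAt v (∏ j ∈ S, bb r τ j) := by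
    rw [oddAt_bb hr0 h v hr S, mem_sS_iff h hv, odd_sing']
    exact hj
  rw [oddAt_iff h0, par_sq h0 hsq] at h1
  exact absurd h1 (by decide)

include hr0 in
theorem supLe {τ : Ix m → Finset (HeightOneSpectrum (𝓞 F))} (h : Dj τ)
    (hr : ∀ T, ∀ v, OddAt v (r (τ T)) ↔ v ∈ τ T) (X : ℝ) (hX : ∏ T, (nm (nn F) (τ T) : ℝ) ≤ X) :
    SupLe (bb r τ) X := by
  intro A hA
  rw [← nm_cast]
  have h1 : A ⊆ Finset.univ.biUnion τ := by
    intro v hv
    obtain ⟨j, hj⟩ := hA v hv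
    have h2 : OddAt v (∏ j ∈ ({j} : Finset (Fin m)), bb r τ j) := by
      rw [Finset.prod_singleton]
      exact hj
    rw [oddAt_bb hr0 h v hr] at h2
    obtain ⟨T, -, hT⟩ := mem_sS.1 h2
    exact Finset.mem_biUnion.2 ⟨T, Finset.mem_univ _, hT⟩
  have h2 : nm (nn F) A ≤ nm (nn F) (Finset.univ.biUnion τ) := by
    unfold nm
    refine Finset.prod_le_prod_of_subset_of_one_le' h1 fun v _ _ => ?_
    have := nn_two F v
    omega
  have h3 : nm (nn F) (Finset.univ.biUnion τ) = ∏ T, nm (nn F) (τ T) := by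
    unfold nm
    refine Finset.prod_biUnion ?_
    intro T _ T' _ hne
    exact h T T' hne
  calc (nm (nn F) A : ℝ) ≤ (nm (nn F) (Finset.univ.biUnion τ) : ℝ) := by exact_mod_cast h2
    _ = ∏ T, (nm (nn F) (τ T) : ℝ) := by
      rw [h3]
      push_cast
      rfl
    _ ≤ X := hX

/-- `SubSp` for all products -/
theorem subSp_all {b b' : Fin m → F} (hb : ∀ j, b j ≠ 0) (hb' : ∀ j, b' j ≠ 0) (h : SubSp b b')
    (S : Finset (Fin m)) : ∃ S' : Finset (Fin m), ∀ v : HeightOneSpectrum (𝓞 F),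
      par v (∏ j ∈ S, b j) = par v (∏ j ∈ S', b' j) := by
  induction S using Finset.induction_on with
  | empty => exact ⟨∅, fun v => by rw [Finset.prod_empty, Finset.prod_empty]⟩
  | insert a S ha ih =>
    obtain ⟨S', hS'⟩ := ih
    obtain ⟨Sj, hSj⟩ := h a
    refine ⟨symmDiff Sj S', fun v => ?_⟩
    have h0 : ∏ i ∈ Sj, b' i ≠ 0 := Finset.prod_ne_zero_iff.2 fun i _ => hb' i
    have h1 : par v (b a) + par v (∏ i ∈ Sj, b' i) = 0 := by
      rw [← par_mul (hb a) h0]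
      exact par_sq (mul_ne_zero (hb a) h0) hSj
    have h2 : par v (b a) = par v (∏ i ∈ Sj, b' i) := by
      have h3 : par v (∏ i ∈ Sj, b' i) + par v (∏ i ∈ Sj, b' i) = 0 := CharTwo.add_self_eq_zero _
      linear_combination h1 - h3
    rw [Finset.prod_insert ha, par_mul (hb a) (Finset.prod_ne_zero_iff.2 fun i _ => hb i), hS' v, h2,
      par_prod v Sj b' hb', par_prod v S' b' hb', par_prod v _ b' hb', sum_symm]

include hr0 in
theorem subSp_EE {τ τ' : Ix m → Finset (HeightOneSpectrum (𝓞 F))} (h : Dj τ) (h' : Dj τ')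
    (hne : ∀ T, (τ T).Nonempty) (hne' : ∀ T, (τ' T).Nonempty)
    (hr : ∀ T, ∀ v, OddAt v (r (τ T)) ↔ v ∈ τ T) (hr' : ∀ T, ∀ v, OddAt v (r (τ' T)) ↔ v ∈ τ' T)
    (hs : SubSp (bb r τ) (bb r τ')) : EE τ = EE τ' := by
  refine Finset.eq_of_subset_of_card_le ?_ (le_of_eq ?_)
  · intro A hA
    unfold EE at hA ⊢
    obtain ⟨S, -, rfl⟩ := Finset.mem_image.1 hA
    obtain ⟨S', hS'⟩ := subSp_all (bb_ne hr0 τ) (bb_ne hr0 τ') hs S
    refine Finset.mem_image.2 ⟨S', Finset.mem_univ _, ?_⟩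
    ext v
    rw [← oddAt_bb hr0 h v hr S, ← oddAt_bb hr0 h' v hr' S',
      oddAt_iff (Finset.prod_ne_zero_iff.2 fun j _ => bb_ne hr0 τ j),
      oddAt_iff (Finset.prod_ne_zero_iff.2 fun j _ => bb_ne hr0 τ' j), hS' v]
  · rw [card_EE h hne, card_EE h' hne']

end

theorem lowb : S_LOWA → S_CLS → S_LOWB := by
  intro hA hC F _ _ m hm
  obtain ⟨C, hC0, hU⟩ := up F
  obtain ⟨c, P0, hc, hL⟩ := lows F hA hC
  have hm0 : (Finset.univ : Finset (Fin m)).Nonempty := ⟨⟨0, hm⟩, Finset.mem_univ _⟩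
  obtain ⟨c', X0, hc', hX0, hT⟩ := tuples (ι := Ix m) ⟨Finset.univ, hm0⟩ (nn F) (nn_two F) (nn_fin F) C hC0
    hU (Gd F) c hc P0 hL
  have hrep : ∀ A : Finset (HeightOneSpectrum (𝓞 F)), ∃ D : F, D ≠ 0 ∧
      (Gd F A → ∀ v, OddAt v D ↔ v ∈ A) := by
    intro A
    by_cases h : Gd F A
    · obtain ⟨D, hD, h1⟩ := h
      exact ⟨D, hD, fun _ => h1⟩
    · exact ⟨1, one_ne_zero, fun h1 => absurd h1 h⟩
  choose r hr0 hr using hrep
  refine ⟨c' / ((2 ^ m) ^ m), X0, by positivity, hX0, ?_⟩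
  intro X hX
  obtain ⟨𝒯, h𝒯, hcard⟩ := hT X hX
  have hG : ∀ τ ∈ 𝒯, ∀ T, ∀ v, OddAt v (r (τ T)) ↔ v ∈ τ T := fun τ hτ T =>
    hr _ ((h𝒯 τ hτ).1 T).1
  have hN : ∀ τ ∈ 𝒯, ∀ T, (τ T).Nonempty := fun τ hτ T => ((h𝒯 τ hτ).1 T).2
  have hD : ∀ τ ∈ 𝒯, Dj τ := fun τ hτ => (h𝒯 τ hτ).2.1
  obtain ⟨ℰ, hℰ⟩ : ∃ ℰ : Finset (Finset (Finset (HeightOneSpectrum (𝓞 F)))), ℰ = 𝒯.image EE := ⟨_, rfl⟩
  have hch : ∀ e : {x // x ∈ ℰ}, ∃ τ ∈ 𝒯, EE τ = e.1 := by
    intro e
    have h1 : e.1 ∈ 𝒯.image EE := hℰ ▸ e.2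
    exact Finset.mem_image.1 h1
  choose g hg1 hg2 using hch
  refine ⟨ℰ.card, fun i => bb r (g (ℰ.equivFin.symm i)), ?_, ?_, ?_, ?_⟩
  · intro i
    exact indep hr0 (hD _ (hg1 _)) (hN _ (hg1 _)) (hG _ (hg1 _))
  · intro i i' hne hs
    apply hne
    have h1 := subSp_EE hr0 (hD _ (hg1 _)) (hD _ (hg1 _)) (hN _ (hg1 _)) (hN _ (hg1 _))
      (hG _ (hg1 _)) (hG _ (hg1 _)) hs
    rw [hg2, hg2] at h1
    exact ℰ.equivFin.symm.injective (Subtype.ext h1)
  · intro i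
    exact supLe hr0 (hD _ (hg1 _)) (hG _ (hg1 _)) X (h𝒯 _ (hg1 _)).2.2
  · have h1 : 𝒯.card ≤ (2 ^ m) ^ m * ℰ.card := by
      rw [hℰ]
      refine Finset.card_le_mul_card_image 𝒯 _ ?_
      intro e he
      obtain ⟨τ0, hτ0, hτe⟩ := Finset.mem_image.1 he
      have h2 : ((2 ^ m) ^ m : ℕ) = (Fintype.piFinset (fun _ : Fin m => e)).card := by
        rw [Fintype.card_piFinset, Finset.prod_const, Finset.card_univ, Fintype.card_fin, ← hτe,
          card_EE (hD _ hτ0) (hN _ hτ0)]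
      rw [h2]
      refine Finset.card_le_card_of_injOn (fun τ j => sS τ {j}) ?_ ?_
      · intro τ hτ
        rw [Finset.mem_coe, Finset.mem_filter] at hτ
        rw [Finset.mem_coe, Fintype.mem_piFinset]
        intro j
        rw [← hτ.2]
        exact Finset.mem_image_of_mem _ (Finset.mem_univ _)
      · intro τ hτ τ' hτ' he'
        rw [Finset.mem_coe, Finset.mem_filter] at hτ hτ'
        exact det (hD _ hτ.1) (hD _ hτ'.1) (fun j => congrFun he' j)
    have h3 : (𝒯.card : ℝ) ≤ (2 ^ m) ^ m * (ℰ.card : ℝ) := by exact_mod_cast h1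
    have h4 : Fintype.card (Ix m) - 1 = 2 ^ m - 2 := by
      rw [card_Ix]
      omega
    rw [h4] at hcard
    have h5 : c' / ((2 ^ m) ^ m) * X * (1 + Real.log X) ^ (2 ^ m - 2) =
        (c' * X * (1 + Real.log X) ^ (2 ^ m - 2)) / ((2 ^ m) ^ m) := by ring
    rw [h5, div_le_iff₀ (by positivity)]
    linarith

end Pool.Agent.Q68.ESB.Lw
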