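import Pool.Agent.Q68.ESB.StA
import Pool.Agent.Q150.ESN.Bx

/-!
# Project ESB (helper161): job BX (the number of the vectors in a box; adapted from Pool/Agent/Q150/ESN/Bx.lean)
-/

set_option autoImplicit false

namespace Pool.Agent.Q68.ESB.BX

open Finset Pool.Agent.Q161.ESB
open Pool.Agent.Q68.ESB.ST (frac_ge)
open Pool.Agent.Q150.ESN.BX (Phi_pos Phi_low one_le_vs box_finite log_prod_le)
open Pool.Agent.Q51.EL (pr)

theorem bx : S_CH → S_GS → S_BX := by
  classical
  intro hCH hGS Mn ι _ _ n s A c κ hOk hEx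
  have hA := hOk.A1
  have hMn := hOk.M1
  have hlA : 0 ≤ Real.log A := Real.log_nonneg hA
  obtain ⟨A1, b, C, hA1, hb0, hb1, hC, hch⟩ := hCH Mn ι n s A c κ hOk hEx
  obtain ⟨CG, hCG, hgs⟩ := hGS ι n ((Fintype.card ι : ℝ) * A) hOk.n1 (by positivity)
  obtain ⟨Nn, hNn⟩ : ∃ Nn : ℕ, Nn = ∑ i, n i := ⟨_, rfl⟩
  obtain ⟨A2, hA2⟩ : ∃ A2 : ℝ, A2 = max A1 (1 + 2 * (Fintype.card ι * Real.log A) + 2 * Nn) := ⟨_, rfl⟩
  have hA21 : A1 ≤ A2 := hA2 ▸ le_max_left _ _
  have hA22 : 1 + 2 * (Fintype.card ι * Real.log A) + 2 * Nn ≤ A2 := hA2 ▸ le_max_right _ _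
  have hA2one : 1 ≤ A2 := hA1.trans hA21
  refine ⟨b, CG * 3 ^ Nn * C * (A2 ^ (Fintype.card ι + 1)) ^ (Fintype.card ι), hb0, hb1, by positivity, ?_⟩
  intro T hT k e H hMk hH hmono
  have hk : k = Fintype.card ι := by
    rw [← Fintype.card_fin k]
    exact (Fintype.card_congr e).symm
  have hk1 : 1 ≤ k := by omega
  obtain ⟨v, hv⟩ : ∃ v : ℕ → ℝ, v = vs e H := ⟨_, rfl⟩
  have hv1 : ∀ j, 1 ≤ v j := fun j => hv ▸ one_le_vs e H hH j
  have hv0 : ∀ j, 0 < v j := fun j => lt_of_lt_of_le one_pos (hv1 j)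
  -- the index
  obtain ⟨j, hjdef⟩ : ∃ j : ℕ, j = Nat.findGreatest (fun j => j = 0 ∨ A2 * v (j - 1) ≤ v j) (k - Mn) := ⟨_, rfl⟩
  have hjk : j < k := by
    have : j ≤ k - Mn := hjdef ▸ Nat.findGreatest_le _
    omega
  have hjM : j + Mn ≤ k := by
    have : j ≤ k - Mn := hjdef ▸ Nat.findGreatest_le _
    omega
  have hjP : j = 0 ∨ A2 * v (j - 1) ≤ v j := by
    have := Nat.findGreatest_spec (P := fun j => j = 0 ∨ A2 * v (j - 1) ≤ v j) (m := 0) (n := k - Mn)
      (Nat.zero_le _) (Or.inl rfl)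
    rw [← hjdef] at this
    exact this
  have hjmax : ∀ i, j ≤ i → i < j + (k - Mn - j) → v (i + 1) ≤ A2 * v i := by
    intro i hi1 hi2
    have h1 := Nat.findGreatest_is_greatest (P := fun j => j = 0 ∨ A2 * v (j - 1) ≤ v j) (n := k - Mn)
      (k := i + 1) (by rw [← hjdef]; omega) (by omega)
    simp only [Nat.add_sub_cancel] at h1
    push Not at h1
    exact h1.2.le
  have hfin : {x ∈ T | ∀ i j, |(x i j : ℝ)| ≤ H i}.Finite :=
    (box_finite H).subset fun x hx => hx.2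
  refine ⟨hfin, ?_⟩
  rw [Set.ncard_eq_toFinset_card _ hfin]
  obtain ⟨X, hX⟩ : ∃ X : Finset (Vc n), X = hfin.toFinset := ⟨_, rfl⟩
  rw [← hX]
  have hXm : ∀ x ∈ X, x ∈ T ∧ ∀ i j, |(x i j : ℝ)| ≤ H i := by
    intro x hx
    rw [hX, Set.Finite.mem_toFinset] at hx
    exact hx
  obtain ⟨S, hS⟩ : ∃ S : Finset ι, S = univ.filter (fun i => j ≤ (e i : ℕ)) := ⟨_, rfl⟩
  have hSm : ∀ i, i ∈ S ↔ j ≤ (e i : ℕ) := by
    intro i
    rw [hS, mem_filter]
    simp
  obtain ⟨Y, hY⟩ : ∃ Y : ℝ, Y = H (e.symm ⟨j, hjk⟩) := ⟨_, rfl⟩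
  have hY1 : 1 ≤ Y := hY ▸ hH _
  have hY0 : 0 < Y := by linarith
  obtain ⟨hd, hhd⟩ : ∃ hd : Vc n → Vc n, hd = fun x i => if j ≤ (e i : ℕ) then 0 else x i := ⟨_, rfl⟩
  have hhd1 : ∀ x i, i ∈ S → hd x i = 0 := by
    intro x i hi
    rw [hhd]
    simp only [if_pos ((hSm i).1 hi)]
  have hhd2 : ∀ x i, i ∉ S → hd x i = x i := by
    intro x i hi
    rw [hSm] at hi
    rw [hhd]
    simp only [if_neg hi]
  have hSne : S.Nonempty := ⟨e.symm ⟨j, hjk⟩, by rw [hSm]; simp⟩
  -- the fibres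
  have hfib : ∀ z ∈ X.image hd, (((X.filter (fun x => hd x = z)).card : ℕ) : ℝ) ≤
      CG * 3 ^ Nn * (∏ i ∈ S, H i ^ n i) * Wt s S Y z := by
    intro z hz
    obtain ⟨x0, hx0, hx0z⟩ := mem_image.1 hz
    obtain ⟨hx0T, hx0H⟩ := hXm x0 hx0
    have hzi : ∀ i, i ∉ S → z i = x0 i := fun i hi => by rw [← hx0z, hhd2 x0 i hi]
    obtain ⟨M, hM⟩ : ∃ M : ℕ, M = ∏ i ∈ univ \ S, s.Nm i (z i) := ⟨_, rfl⟩
    have hNm0 : ∀ i, i ∉ S → s.Nm i (z i) ≠ 0 := by
      intro i hi
      rw [hzi i hi]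
      exact hOk.n0 i _ ((hT x0 hx0T).2 i)
    have hM0 : M ≠ 0 := by
      rw [hM, prod_ne_zero_iff]
      intro i hi
      exact hNm0 i (mem_sdiff.1 hi).2
    have hMY : (M : ℝ) ^ 2 ≤ Y := by
      rcases Nat.eq_zero_or_pos j with hj0 | hj0
      · have h1 : univ \ S = ∅ := by
          rw [sdiff_eq_empty_iff_subset]
          intro i _
          rw [hSm, hj0]
          exact Nat.zero_le _
        rw [hM, h1, prod_empty]
        push_cast
        linarith
      · have hjv : A2 * v (j - 1) ≤ v j := hjP.resolve_left (by omega)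
        have hj1k : j - 1 < k := by omega
        obtain ⟨L, hL⟩ : ∃ L : ℝ, L = Real.log (H (e.symm ⟨j - 1, hj1k⟩)) := ⟨_, rfl⟩
        have hL0 : 0 ≤ L := hL ▸ Real.log_nonneg (hH _)
        have e1 : v (j - 1) = 1 + L := by
          rw [hv, hL]
          unfold vs vv
          rw [dif_pos hj1k]
        have e2 : v j = 1 + Real.log Y := by
          rw [hv, hY]
          unfold vs vv
          rw [dif_pos hjk]
        rw [e1, e2] at hjv
        have h2 : Real.log (M : ℝ) ≤ Fintype.card ι * Real.log A + (∑ i, n i : ℕ) * L := by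
          rw [hM]
          push_cast
          have h3 := log_prod_le n (univ \ S) (fun i => (s.Nm i (z i) : ℝ)) H A L hA ?_ ?_ (fun i _ => hH i) hL0 ?_
          · push_cast at h3
            exact h3
          · intro i hi
            have := hNm0 i (mem_sdiff.1 hi).2
            exact_mod_cast Nat.pos_of_ne_zero this
          · intro i hi
            rw [hzi i (mem_sdiff.1 hi).2]
            exact hOk.nb i _ (H i) (hH i) (hx0H i)
          · intro i hi
            have h4 := (mem_sdiff.1 hi).2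
            rw [hSm] at h4
            rw [hL]
            refine Real.log_le_log (lt_of_lt_of_le one_pos (hH i)) (hmono _ _ ?_)
            rw [Equiv.apply_symm_apply, Fin.le_def]
            simp only
            omega
        rw [← hNn] at h2
        have h5 : 2 * Real.log (M : ℝ) ≤ Real.log Y := by
          have h6 : (1 + 2 * (Fintype.card ι * Real.log A) + 2 * Nn) * (1 + L) ≤ A2 * (1 + L) :=
            mul_le_mul_of_nonneg_right hA22 (by linarith)
          have h7 : 0 ≤ (Fintype.card ι : ℝ) * Real.log A * L := by positivity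
          have h8 : 0 ≤ (Nn : ℝ) := by positivity
          nlinarith
        have hMp : (0 : ℝ) < M := by exact_mod_cast Nat.pos_of_ne_zero hM0
        rw [← Real.log_le_log_iff (by positivity) hY0, Real.log_pow]
        push_cast
        exact h5
    obtain ⟨Pb, hPb⟩ : ∃ Pb : Finset ℕ, Pb = (PP s.B Y).filter (fun l => l ∣ M) := ⟨_, rfl⟩
    obtain ⟨P, hP⟩ : ∃ P : Finset ℕ, P = (PP s.B Y).filter (fun l => ¬ l ∣ M) := ⟨_, rfl⟩
    have hPPm : ∀ l ∈ PP s.B Y, l.Prime ∧ ¬ l ∣ s.B ∧ (l : ℝ) ^ 4 ≤ Y := by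
      intro l hl
      unfold PP at hl
      rw [mem_filter] at hl
      refine ⟨?_, hl.2⟩
      have := hl.1
      unfold Pool.Agent.Q51.EL.pr at this
      exact (mem_filter.1 this).2
    have hun : P ∪ Pb = PP s.B Y := by
      rw [hP, hPb, union_comm]
      exact filter_union_filter_not_eq _ _
    have hdisj : Disjoint P Pb := by
      rw [hP, hPb]
      exact (disjoint_filter_filter_not _ _ _).symm
    have hprodM : ∏ l ∈ Pb, l ≤ M := by
      refine Nat.le_of_dvd (Nat.pos_of_ne_zero hM0) (prod_primes_dvd M ?_ ?_)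
      · intro l hl
        rw [hPb] at hl
        exact Nat.Prime.prime (hPPm l (mem_filter.1 hl).1).1
      · intro l hl
        rw [hPb] at hl
        exact (mem_filter.1 hl).2
    have hgs' := hgs s.Om S z (fun i _ => -((⌊H i⌋₊ : ℕ) : ℤ)) (fun i => 2 * ⌊H i⌋₊ + 1) Y P Pb
      (X.filter (fun x => hd x = z)) hSne hY1 (by
        intro i hi
        have h1 : Y ≤ H i := by
          rw [hY]
          refine hmono _ _ ?_
          rw [Equiv.apply_symm_apply, Fin.le_def]
          exact (hSm i).1 hi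
        have h2 := Nat.lt_floor_add_one (H i)
        have h3 : (0 : ℝ) ≤ ⌊H i⌋₊ := by positivity
        push_cast
        linarith) hdisj (by
        intro l hl
        rw [hun] at hl
        exact ⟨(hPPm l hl).1, (hPPm l hl).2.2⟩) (by
        have h1 : ((∏ l ∈ Pb, l : ℕ) : ℝ) ≤ M := by exact_mod_cast hprodM
        exact (pow_le_pow_left₀ (by positivity) h1 2).trans hMY) (by
        intro l hl
        rw [hP, mem_filter] at hl
        obtain ⟨hl1, hl2⟩ := hl
        refine frac_ge hOk (hPPm l hl1).1 (hPPm l hl1).2.1 S z ?_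
        intro i hi
        by_contra hcon
        apply hl2
        rw [hM]
        exact (hOk.nm l (hPPm l hl1).1 (hPPm l hl1).2.1 i (z i) hcon).trans
          (dvd_prod_of_mem _ (mem_sdiff.2 ⟨mem_univ i, hi⟩))) (by
        intro x hx
        rw [mem_filter] at hx
        obtain ⟨hx1, hx2⟩ := hx
        obtain ⟨hxT, hxH⟩ := hXm x hx1
        refine ⟨⟨?_, ?_⟩, ?_⟩
        · intro i _ j'
          have h1 : |x i j'| ≤ ((⌊H i⌋₊ : ℕ) : ℤ) := by
            have h2 : (x i j').natAbs ≤ ⌊H i⌋₊ := by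
              refine Nat.le_floor ?_
              rw [Nat.cast_natAbs, Int.cast_abs]
              exact hxH i j'
            rw [Int.abs_eq_natAbs]
            exact_mod_cast h2
          have h2 := abs_le.1 h1
          constructor
          · exact h2.1
          · push_cast
            omega
        · intro i hi
          rw [← hx2, hhd2 x i hi]
        · intro l hl
          rw [hun] at hl
          exact (hT x hxT).1 l (hPPm l hl).1 (hPPm l hl).2.1)
    rw [hun] at hgs'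
    have hW : ∏ l ∈ PP s.B Y, frac n s.Om S l z = Wt s S Y z := rfl
    rw [hW] at hgs'
    have hW0 : 0 ≤ Wt s S Y z := by
      unfold Wt
      refine prod_nonneg fun l _ => ?_
      unfold frac
      positivity
    have hpr : ∏ i ∈ S, ((2 * ⌊H i⌋₊ + 1 : ℕ) : ℝ) ^ n i ≤ 3 ^ Nn * ∏ i ∈ S, H i ^ n i := by
      calc ∏ i ∈ S, ((2 * ⌊H i⌋₊ + 1 : ℕ) : ℝ) ^ n i ≤ ∏ i ∈ S, (3 * H i) ^ n i := by
            refine prod_le_prod (fun i _ => by positivity) fun i _ => ?_
            refine pow_le_pow_left₀ (by positivity) ?_ _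
            have h1 := Nat.floor_le (le_trans zero_le_one (hH i))
            have h2 := hH i
            push_cast
            linarith
        _ = (∏ i ∈ S, (3 : ℝ) ^ n i) * ∏ i ∈ S, H i ^ n i := by
            rw [← prod_mul_distrib]
            exact prod_congr rfl fun i _ => mul_pow _ _ _
        _ ≤ 3 ^ Nn * ∏ i ∈ S, H i ^ n i := by
            refine mul_le_mul_of_nonneg_right ?_ (prod_nonneg fun i _ => pow_nonneg (le_trans zero_le_one (hH i)) _)
            rw [prod_pow_eq_pow_sum, hNn]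
            exact pow_le_pow_right₀ (by norm_num) (sum_le_sum_of_subset (subset_univ S))
    calc (((X.filter (fun x => hd x = z)).card : ℕ) : ℝ) ≤
          CG * (∏ i ∈ S, ((2 * ⌊H i⌋₊ + 1 : ℕ) : ℝ) ^ n i) * Wt s S Y z := hgs'
      _ ≤ CG * (3 ^ Nn * ∏ i ∈ S, H i ^ n i) * Wt s S Y z :=
          mul_le_mul_of_nonneg_right (mul_le_mul_of_nonneg_left hpr hCG.le) hW0
      _ = _ := by ring
  -- the sum over the heads
  have hjA1 : j = 0 ∨ A1 * vs e H (j - 1) ≤ vs e H j := by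
    rcases hjP with h | h
    · exact Or.inl h
    · right
      rw [← hv]
      exact (mul_le_mul_of_nonneg_right hA21 (hv0 _).le).trans h
  have hchain := hch k e H hH hmono j hjk hjM hjA1 (X.image hd) (by
    intro z hz
    obtain ⟨x, hx, rfl⟩ := mem_image.1 hz
    obtain ⟨hxT, hxH⟩ := hXm x hx
    constructor
    · intro i hi
      have h1 : hd x i = x i := hhd2 x i (by rw [hSm]; omega)
      rw [h1]
      exact ⟨(hT x hxT).2 i, hxH i⟩
    · intro i hi
      exact hhd1 x i ((hSm i).2 hi))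
  rw [← hS, ← hY, ← hv] at hchain
  have hprodsplit : (∏ i ∈ S, H i ^ n i) * ∏ i ∈ univ.filter (fun i => (e i : ℕ) < j), H i ^ n i =
      ∏ i, H i ^ n i := by
    rw [hS, ← prod_filter_mul_prod_filter_not univ (fun i => j ≤ (e i : ℕ))]
    congr 1
    refine prod_congr ?_ fun _ _ => rfl
    ext i
    simp
  have hcard : ((X.card : ℕ) : ℝ) = ∑ z ∈ X.image hd, (((X.filter (fun x => hd x = z)).card : ℕ) : ℝ) := by
    rw [card_eq_sum_card_image hd X]
    push_cast
    rfl
  have hprS0 : 0 ≤ ∏ i ∈ S, H i ^ n i := prod_nonneg fun i _ => pow_nonneg (le_trans zero_le_one (hH i)) _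
  have hpr0 : 0 ≤ ∏ i, H i ^ n i := prod_nonneg fun i _ => pow_nonneg (le_trans zero_le_one (hH i)) _
  have hlow := Phi_low (k + 1 - Mn) b hb0.le hb1 A2 hA2one v hv0 j (k - Mn - j) hjmax
  have hjj : j + (k - Mn - j) = k - Mn := by omega
  rw [hjj] at hlow
  have hPk := Phi_pos (k + 1 - Mn) b v hv0 (k - Mn)
  have hPj := Phi_pos (k + 1 - Mn) b v hv0 j
  have hpw : (A2 ^ (k + 1 - Mn + 1)) ^ (k - Mn - j) ≤ (A2 ^ (Fintype.card ι + 1)) ^ (Fintype.card ι) := by
    rw [← hk, ← pow_mul, ← pow_mul]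
    refine pow_le_pow_right₀ hA2one ?_
    exact Nat.mul_le_mul (by omega) (by omega)
  have hlow2 : Phi (k + 1 - Mn) b v j ≤ (A2 ^ (Fintype.card ι + 1)) ^ (Fintype.card ι) * Phi (k + 1 - Mn) b v (k - Mn) :=
    hlow.trans (mul_le_mul_of_nonneg_right hpw hPk.le)
  rw [hcard, ← hv]
  calc ∑ z ∈ X.image hd, (((X.filter (fun x => hd x = z)).card : ℕ) : ℝ) ≤
        ∑ z ∈ X.image hd, CG * 3 ^ Nn * (∏ i ∈ S, H i ^ n i) * Wt s S Y z := sum_le_sum hfib
    _ = CG * 3 ^ Nn * (∏ i ∈ S, H i ^ n i) * ∑ z ∈ X.image hd, Wt s S Y z := by rw [mul_sum]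
    _ ≤ CG * 3 ^ Nn * (∏ i ∈ S, H i ^ n i) *
        (C * (∏ i ∈ univ.filter (fun i => (e i : ℕ) < j), H i ^ n i) * Phi (k + 1 - Mn) b v j) := by
        refine mul_le_mul_of_nonneg_left hchain (by positivity)
    _ = CG * 3 ^ Nn * C * ((∏ i ∈ S, H i ^ n i) * ∏ i ∈ univ.filter (fun i => (e i : ℕ) < j), H i ^ n i) *
        Phi (k + 1 - Mn) b v j := by ring
    _ = CG * 3 ^ Nn * C * (∏ i, H i ^ n i) * Phi (k + 1 - Mn) b v j := by rw [hprodsplit]
    _ ≤ CG * 3 ^ Nn * C * (∏ i, H i ^ n i) *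
        ((A2 ^ (Fintype.card ι + 1)) ^ (Fintype.card ι) * Phi (k + 1 - Mn) b v (k - Mn)) := by
        refine mul_le_mul_of_nonneg_left hlow2 (by positivity)
    _ = _ := by ring

end Pool.Agent.Q68.ESB.BX
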