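import Pool.Agent.Q161.ESB.Stm1
import Pool.Agent.Q150.ESN.Ch

/-!
# Project ESB (helper161), JOB CH: the chain of the steps (adapted from Pool/Agent/Q150/ESN/Ch.lean)
-/

set_option autoImplicit false

namespace Pool.Agent.Q68.ESB.CH

open Finset
open Pool.Agent.Q51.EL (pr)
open Pool.Agent.Q161.ESB
open Pool.Agent.Q150.ESN (cut vs_eq one_le_vs vs_mono card_ge card_box Phi_pos F1 F2)

section

variable {ι : Type} [Fintype ι] [DecidableEq ι] {n : ι → ℕ}

/-- the product of the norms of the first variables -/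
theorem norm_le {Mn : ℕ} {s : Sy n} {A c κ : ℝ} (hok : Ok Mn s A c κ) {k : ℕ} (e : ι ≃ Fin k) (H : ι → ℝ)
    (hH : ∀ i, 1 ≤ H i) (hm : ∀ i i', e i ≤ e i' → H i ≤ H i') (j : ℕ) (hj : j < k)
    (hcond : j = 0 ∨ (1 + 2 * (k : ℝ) * Real.log A + 2 * ((∑ i, n i : ℕ) : ℝ)) * vs e H (j - 1) ≤
      vs e H j)
    (z : Vc n) (hz : ∀ i, (e i : ℕ) < j → ∀ j', |(z i j' : ℝ)| ≤ H i) :
    ((∏ i ∈ univ \ univ.filter (fun i => j ≤ (e i : ℕ)), s.Nm i (z i) : ℕ) : ℝ) ^ 2 ≤
      H (e.symm ⟨j, hj⟩) := by
  have hset : univ \ univ.filter (fun i => j ≤ (e i : ℕ)) = univ.filter (fun i => (e i : ℕ) < j) := by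
    ext i; simp
  rw [hset]
  rcases hcond with h0 | hcond
  · subst h0
    simp only [not_lt_zero, Finset.filter_false, Finset.prod_empty, Nat.cast_one, one_pow]
    exact hH _
  · rcases Nat.eq_zero_or_pos j with h0 | hj0
    · subst h0
      simp only [not_lt_zero, Finset.filter_false, Finset.prod_empty, Nat.cast_one, one_pow]
      exact hH _
    have hj1 : j - 1 < k := by omega
    set M := H (e.symm ⟨j - 1, hj1⟩) with hM
    have hM1 : 1 ≤ M := hH _
    have hA0 : 0 < A := lt_of_lt_of_le one_pos hok.A1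
    have hlA : 0 ≤ Real.log A := Real.log_nonneg hok.A1
    have hlM : 0 ≤ Real.log M := Real.log_nonneg hM1
    have hfac : ∀ i ∈ univ.filter (fun i => (e i : ℕ) < j), (s.Nm i (z i) : ℝ) ≤ A * M ^ n i := by
      intro i hi
      rw [Finset.mem_filter] at hi
      have h1 := hok.nb i (z i) (H i) (hH i) (hz i hi.2)
      have h2 : H i ≤ M := by
        apply hm
        simp only [Equiv.apply_symm_apply]
        rw [Fin.le_def]
        simp only
        omega
      have h3 := hH i
      refine h1.trans ?_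
      gcongr
    have hprod : ((∏ i ∈ univ.filter (fun i => (e i : ℕ) < j), s.Nm i (z i) : ℕ) : ℝ) ≤
        A ^ k * M ^ (∑ i, n i) := by
      push_cast
      refine (Finset.prod_le_prod (fun i _ => Nat.cast_nonneg _) hfac).trans ?_
      rw [Finset.prod_mul_distrib, Finset.prod_const, Finset.prod_pow_eq_pow_sum]
      have hc : (univ.filter (fun i => (e i : ℕ) < j)).card ≤ k := by
        refine (Finset.card_le_univ _).trans ?_
        rw [Fintype.card_congr e, Fintype.card_fin]
      have hs : ∑ i ∈ univ.filter (fun i => (e i : ℕ) < j), n i ≤ ∑ i, n i :=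
        Finset.sum_le_sum_of_subset (Finset.filter_subset _ _)
      have := hok.A1
      gcongr
    have hsq : ((∏ i ∈ univ.filter (fun i => (e i : ℕ) < j), s.Nm i (z i) : ℕ) : ℝ) ^ 2 ≤
        (A ^ k * M ^ (∑ i, n i)) ^ 2 := by gcongr
    refine hsq.trans ?_
    rw [vs_eq e H hj1, vs_eq e H hj, vv, vv, ← hM] at hcond
    have hHj := hH (e.symm ⟨j, hj⟩)
    have hpos : 0 < (A ^ k * M ^ (∑ i, n i)) ^ 2 := by positivity
    rw [← Real.log_le_log_iff hpos (by linarith)]
    rw [Real.log_pow, Real.log_mul (by positivity) (by positivity), Real.log_pow, Real.log_pow]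
    push_cast at hcond ⊢
    have hk0 : (0 : ℝ) ≤ (k : ℝ) := Nat.cast_nonneg _
    have hN0 : (0 : ℝ) ≤ ∑ i, (n i : ℝ) := Finset.sum_nonneg (fun i _ => Nat.cast_nonneg _)
    nlinarith [mul_nonneg (mul_nonneg hk0 hlA) hlM, mul_nonneg hk0 hlA]

end

theorem ch (hST : S_ST) (hRB : S_RB) : S_CH := by
  intro Mn ι _ _ n s A c κ hok hex
  have hMn := hok.M1
  have hlA : 0 ≤ Real.log A := Real.log_nonneg hok.A1
  obtain ⟨k0, hk0⟩ : ∃ k0, k0 = Fintype.card ι := ⟨_, rfl⟩
  obtain ⟨A1, hA1⟩ : ∃ A1 : ℝ, A1 = 1 + 2 * (k0 : ℝ) * Real.log A + 2 * ((∑ i, n i : ℕ) : ℝ) :=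
    ⟨_, rfl⟩
  have hA11 : 1 ≤ A1 := by
    rw [hA1]
    have : (0 : ℝ) ≤ ((∑ i, n i : ℕ) : ℝ) := Nat.cast_nonneg _
    have : 0 ≤ (k0 : ℝ) * Real.log A := by positivity
    linarith
  obtain ⟨AA, hAA⟩ : ∃ AA : ℝ, AA = A1 ^ k0 := ⟨_, rfl⟩
  have hAA1 : 1 ≤ AA := by rw [hAA]; exact one_le_pow₀ hA11
  obtain ⟨b, C1, hb0, hb1, hC1, hstep⟩ := hST Mn ι n s A c κ hok hex AA (3 * ((k0 + 1 - Mn : ℕ) : ℝ))
  obtain ⟨C2, hC2, hrb⟩ := hRB Mn ι n s A c κ hok
  have key : ∀ m : ℕ, ∃ C : ℝ, 0 < C ∧ ∀ (k : ℕ) (e : ι ≃ Fin k) (H : ι → ℝ), (∀ i, 1 ≤ H i) →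
      (∀ i i', e i ≤ e i' → H i ≤ H i') →
      ∀ (j : ℕ) (hj : j < k), j + Mn ≤ k → j ≤ m → (j = 0 ∨ A1 * vs e H (j - 1) ≤ vs e H j) →
      ∀ X : Finset (Vc n),
      (∀ x ∈ X, (∀ i, (e i : ℕ) < j → x i ∈ s.Nc i ∧ ∀ j', |(x i j' : ℝ)| ≤ H i) ∧
        ∀ i, j ≤ (e i : ℕ) → x i = 0) →
      ∑ x ∈ X, Wt s (univ.filter (fun i => j ≤ (e i : ℕ))) (H (e.symm ⟨j, hj⟩)) x ≤
        C * (∏ i ∈ univ.filter (fun i => (e i : ℕ) < j), H i ^ n i) * Phi (k + 1 - Mn) b (vs e H) j := by
    intro m
    induction m with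
    | zero =>
      refine ⟨C2, hC2, ?_⟩
      intro k e H hH hm j hj hjM hj0 _ X hX
      obtain rfl : j = 0 := by omega
      have hk : k = k0 := by rw [hk0, Fintype.card_congr e, Fintype.card_fin]
      have hS : univ.filter (fun i => 0 ≤ (e i : ℕ)) = (univ : Finset ι) := by simp
      have hS2 : univ.filter (fun i => (e i : ℕ) < 0) = (∅ : Finset ι) := by simp
      rw [hS, hS2, Finset.prod_empty, mul_one]
      have hsub : X ⊆ {0} := by
        intro x hx
        rw [Finset.mem_singleton]
        funext i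
        exact (hX x hx).2 i (Nat.zero_le _)
      have hH0 := hH (e.symm ⟨0, hj⟩)
      have h1 := (hrb univ 0 1 (H (e.symm ⟨0, hj⟩)) (by rw [Finset.card_univ, ← hk0, ← hk]; omega) le_rfl hH0
        (fun i hi => absurd (Finset.mem_univ i) hi)).1
      have hPP : PP s.B 1 = ∅ := by
        rw [Finset.eq_empty_iff_forall_notMem]
        intro l hl
        unfold PP pr at hl
        rw [Finset.mem_filter, Finset.mem_filter, Finset.mem_Icc] at hl
        have h2 := hl.1.2.two_le
        have h3 := hl.1.1.2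
        simp at h3
        omega
      rw [hPP, Finset.sdiff_empty] at h1
      have hvv1 : vv 1 = 1 := by simp [vv]
      have hPhi : Phi (k + 1 - Mn) b (vs e H) 0 = (vs e H 0) ^ (-(((k + 1 - Mn : ℕ) : ℝ) - 1)) := rfl
      have hv0 := one_le_vs e H hH 0 hj
      have h4 : (vv 1 / vv (H (e.symm ⟨0, hj⟩))) ^ ((univ : Finset ι).card - Mn) =
          Phi (k + 1 - Mn) b (vs e H) 0 := by
        rw [hPhi, hvv1, ← vs_eq e H hj, Finset.card_univ, ← hk0, ← hk, one_div, inv_pow,
          Real.rpow_neg (by linarith)]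
        congr 1
        rw [← Real.rpow_natCast]
        congr 1
        rw [Nat.cast_sub (by omega), Nat.cast_sub (by omega)]
        push_cast
        ring
      rw [h4] at h1
      have hW : ∀ x ∈ X, Wt s univ (H (e.symm ⟨0, hj⟩)) x ≤ C2 * Phi (k + 1 - Mn) b (vs e H) 0 := by
        intro x hx
        have := Finset.mem_singleton.1 (hsub hx)
        rw [this]
        exact h1
      have hPpos := Phi_pos (k := k + 1 - Mn) (b := b) (fun i hi => one_le_vs e H hH i (by omega)) 0 (by omega)
      refine (Finset.sum_le_card_nsmul _ _ _ hW).trans ?_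
      have hc : X.card ≤ 1 := (Finset.card_le_card hsub).trans (by simp)
      rw [nsmul_eq_mul]
      have hc' : (X.card : ℝ) ≤ 1 := by exact_mod_cast hc
      have : 0 ≤ C2 * Phi (k + 1 - Mn) b (vs e H) 0 := by positivity
      nlinarith
    | succ m ih =>
      obtain ⟨C, hC, hind⟩ := ih
      refine ⟨C + C1 * (C * AA ^ ((k0 + 1 - Mn + 1) * (k0 + 1 - Mn) + 1) + 3 ^ (∑ i, n i) * AA ^ (2 * (k0 + 1 - Mn))), by positivity,
        ?_⟩
      intro k e H hH hm j hj hjM hjm hcond X hX
      have hk : k = k0 := by rw [hk0, Fintype.card_congr e, Fintype.card_fin]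
      have h1v : ∀ i, i < k + 1 - Mn → 1 ≤ vs e H i := fun i hi => one_le_vs e H hH i (by omega)
      have hmv : ∀ i i', i ≤ i' → i' < k + 1 - Mn → vs e H i ≤ vs e H i' :=
        fun i i' h1 h2 => vs_mono e H hH hm i i' h1 (by omega)
      have hPpos := Phi_pos (b := b) h1v j (by omega)
      have hprodpos : 0 ≤ ∏ i ∈ univ.filter (fun i => (e i : ℕ) < j), H i ^ n i := by
        apply Finset.prod_nonneg
        intro i _
        have := hH i
        positivity
      rcases Nat.lt_or_ge m j with hlt | hle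
      swap
      · refine (hind k e H hH hm j hj hjM hle hcond X hX).trans ?_
        gcongr
        have : 0 ≤ C1 * (C * AA ^ ((k0 + 1 - Mn + 1) * (k0 + 1 - Mn) + 1) + 3 ^ (∑ i, n i) * AA ^ (2 * (k0 + 1 - Mn))) := by
          positivity
        linarith
      obtain rfl : j = m + 1 := by omega
      -- the index `j'`
      set P : ℕ → Prop := fun i => i = 0 ∨ A1 * vs e H (i - 1) ≤ vs e H i with hP
      classical
      obtain ⟨j', hj'⟩ : ∃ j', j' = Nat.findGreatest P m := ⟨_, rfl⟩
      have hj'm : j' ≤ m := by rw [hj']; exact Nat.findGreatest_le m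
      have hPj' : P j' := by
        rw [hj']
        exact Nat.findGreatest_spec (P := P) (Nat.zero_le m) (Or.inl rfl)
      have hgr : ∀ i, j' < i → i ≤ m → vs e H i ≤ A1 * vs e H (i - 1) := by
        intro i h1 h2
        have := Nat.findGreatest_is_greatest (P := P) (hj' ▸ h1) h2
        rw [hP] at this
        simp only [not_or, not_le] at this
        exact this.2.le
      have hdd : ∀ d, j' + d ≤ m → vs e H (j' + d) ≤ A1 ^ d * vs e H j' := by
        intro d
        induction d with
        | zero => intro _; simp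
        | succ d ihd =>
          intro hd
          have h1 := ihd (by omega)
          have h2 := hgr (j' + (d + 1)) (by omega) hd
          have e1 : j' + (d + 1) - 1 = j' + d := by omega
          rw [e1] at h2
          refine h2.trans ?_
          rw [pow_succ]
          calc A1 * vs e H (j' + d) ≤ A1 * (A1 ^ d * vs e H j') := by gcongr
            _ = _ := by ring
      have hj'k : j' < k := by omega
      have hvj' : 1 ≤ vs e H j' := h1v j' (by omega)
      have hle : ∀ i, j' ≤ i → i ≤ m → vs e H i ≤ AA * vs e H j' := by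
        intro i h1 h2
        have h3 := hdd (i - j') (by omega)
        have e1 : j' + (i - j') = i := by omega
        rw [e1] at h3
        refine h3.trans ?_
        rw [hAA]
        gcongr
        omega
      have f1 := F1 (b := b) h1v hmv hb0 hb1 hAA1 (j' := j') (j := m) (by omega) hj'm hle
      have f2 := F2 (b := b) h1v hmv hb1 hAA1 (j' := j') (j := m) (by omega) hj'm hle
      set S := univ.filter (fun i => j' ≤ (e i : ℕ)) with hS
      set S' := univ.filter (fun i => m + 1 ≤ (e i : ℕ)) with hS'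
      have hmemS : ∀ i, i ∈ S ↔ j' ≤ (e i : ℕ) := by intro i; simp [hS]
      have hmemS' : ∀ i, i ∈ S' ↔ m + 1 ≤ (e i : ℕ) := by intro i; simp [hS']
      have hSS : S' ⊆ S := by
        intro i hi
        rw [hmemS'] at hi
        rw [hmemS]
        omega
      have hmemD : ∀ i, i ∈ S \ S' ↔ j' ≤ (e i : ℕ) ∧ (e i : ℕ) < m + 1 := by
        intro i
        rw [Finset.mem_sdiff, hmemS, hmemS']
        omega
      obtain ⟨Y, hY⟩ : ∃ Y, Y = H (e.symm ⟨j', hj'k⟩) := ⟨_, rfl⟩
      obtain ⟨Y1, hY1⟩ : ∃ Y, Y = H (e.symm ⟨m, by omega⟩) := ⟨_, rfl⟩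
      obtain ⟨Y2, hY2⟩ : ∃ Y, Y = H (e.symm ⟨m + 1, hj⟩) := ⟨_, rfl⟩
      have hvY : vv Y = vs e H j' := by rw [hY, vs_eq e H hj'k]
      have hvY1 : vv Y1 = vs e H m := by rw [hY1, vs_eq e H (by omega)]
      have hvY2 : vv Y2 = vs e H (m + 1) := by rw [hY2, vs_eq e H hj]
      have hYH : ∀ i, j' ≤ (e i : ℕ) → Y ≤ H i := by
        intro i hi
        rw [hY]
        apply hm
        simp only [Equiv.apply_symm_apply]
        rw [Fin.le_def]
        exact hi
      have hHY : ∀ i, (e i : ℕ) ≤ j' → H i ≤ Y := by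
        intro i hi
        rw [hY]
        apply hm
        simp only [Equiv.apply_symm_apply]
        rw [Fin.le_def]
        exact hi
      have hHY1 : ∀ i, (e i : ℕ) ≤ m → H i ≤ Y1 := by
        intro i hi
        rw [hY1]
        apply hm
        simp only [Equiv.apply_symm_apply]
        rw [Fin.le_def]
        exact hi
      have hY1Y2 : Y1 ≤ Y2 := by
        rw [hY1, hY2]
        apply hm
        simp only [Equiv.apply_symm_apply]
        rw [Fin.le_def]
        simp
      have hcard : S'.card - Mn = k + 1 - Mn - m - 2 := by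
        rw [hS', card_ge]
        omega
      -- the bound for one value of the first variables
      have hone : ∀ z ∈ X.image (cut e j'), ∑ x ∈ X.filter (fun x => cut e j' x = z), Wt s S' Y2 x ≤
          C1 * (∏ i ∈ S \ S', H i ^ n i) * (vs e H j' / vs e H (m + 1)) ^ (k + 1 - Mn - m - 2) *
          (((vs e H j' / vs e H (m + 1)) ^ b + vs e H j' ^ (-b)) * Wt s S Y z +
            vs e H j' ^ (-(3 * ((k + 1 - Mn : ℕ) : ℝ)))) := by
        intro z hz
        obtain ⟨x0, hx0, rfl⟩ := Finset.mem_image.1 hz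
        have hz1 : ∀ i, (e i : ℕ) < j' → cut e j' x0 i = x0 i := by
          intro i hi
          simp [cut, hi]
        have hz2 : ∀ i, j' ≤ (e i : ℕ) → cut e j' x0 i = 0 := by
          intro i hi
          simp [cut, not_lt.2 hi]
        have hx0' := hX x0 hx0
        have h := hstep S S' H Y Y1 Y2 (cut e j' x0) (X.filter (fun x => cut e j' x = cut e j' x0))
          hSS (by rw [hS', card_ge]; omega) (by rw [hY]; exact hH _)
          (by rw [hY1]; exact hYH _ (by simpa using hj'm)) hY1Y2
          (by rw [hvY, hvY1]; exact hle m hj'm le_rfl)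
          (fun i hi => by
            rw [hmemD] at hi
            exact ⟨hYH i hi.1, hHY1 i (by omega)⟩)
          ⟨e.symm ⟨m, by omega⟩, by rw [hmemD]; simpa using hj'm, hY1.symm⟩
          (by
            rw [hY]
            apply norm_le hok e H hH hm j' hj'k
            · rcases hPj' with h | h
              · exact Or.inl h
              · right
                rw [hA1, ← hk] at h
                exact h
            · intro i hi j''
              rw [hz1 i hi]
              exact (hx0'.1 i (by omega)).2 j'')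
          (fun i hi => by
            rw [hmemS, not_le] at hi
            rw [hz1 i hi]
            have h5 := hx0'.1 i (by omega)
            exact ⟨fun j'' => (h5.2 j'').trans (hHY i hi.le), hok.n0 i _ h5.1⟩)
          (fun x hx => by
            rw [Finset.mem_filter] at hx
            have hx' := hX x hx.1
            refine ⟨fun i hi => ?_, fun i hi => ?_⟩
            · rw [hmemD] at hi
              exact hx'.1 i hi.2
            · rw [hmemD, not_and_or, not_le, not_lt] at hi
              rcases hi with hi | hi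
              · rw [← hx.2]
                simp [cut, hi]
              · rw [hx'.2 i hi, hz2 i (by omega)])
        rw [hcard, hvY, hvY2, ← hk] at h
        exact h
      -- the sum
      have hsum : ∑ x ∈ X, Wt s S' Y2 x = ∑ z ∈ X.image (cut e j'),
          ∑ x ∈ X.filter (fun x => cut e j' x = z), Wt s S' Y2 x := by
        rw [Finset.sum_fiberwise_of_maps_to]
        intro x hx
        exact Finset.mem_image_of_mem _ hx
      have hZ : ∀ z ∈ X.image (cut e j'), (∀ i, (e i : ℕ) < j' → z i ∈ s.Nc i ∧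
          ∀ j'', |(z i j'' : ℝ)| ≤ H i) ∧ ∀ i, j' ≤ (e i : ℕ) → z i = 0 := by
        intro z hz
        obtain ⟨x0, hx0, rfl⟩ := Finset.mem_image.1 hz
        have hx0' := hX x0 hx0
        constructor
        · intro i hi
          have : cut e j' x0 i = x0 i := by simp [cut, hi]
          rw [this]
          exact hx0'.1 i (by omega)
        · intro i hi
          simp [cut, not_lt.2 hi]
      have hIH := hind k e H hH hm j' hj'k (by omega) hj'm hPj' (X.image (cut e j')) hZ
      have hcb := card_box e H hH j' (X.image (cut e j')) (fun z hz =>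
        ⟨fun i hi => ((hZ z hz).1 i hi).2, (hZ z hz).2⟩)
      rw [← hS, ← hY] at hIH
      rw [← hY2, hsum]
      have hQP : ∏ i ∈ univ.filter (fun i => (e i : ℕ) < m + 1), H i ^ n i =
          (∏ i ∈ univ.filter (fun i => (e i : ℕ) < j'), H i ^ n i) * ∏ i ∈ S \ S', H i ^ n i := by
        rw [← Finset.prod_union]
        · apply Finset.prod_congr _ (fun _ _ => rfl)
          ext i
          rw [Finset.mem_union, hmemD, Finset.mem_filter, Finset.mem_filter]
          simp only [Finset.mem_univ, true_and]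
          omega
        · rw [Finset.disjoint_left]
          intro i hi hi'
          rw [hmemD] at hi'
          rw [Finset.mem_filter] at hi
          omega
      set Q := ∏ i ∈ univ.filter (fun i => (e i : ℕ) < j'), H i ^ n i with hQ
      set PD := ∏ i ∈ S \ S', H i ^ n i with hPD
      have hQ0 : 0 ≤ Q := by
        apply Finset.prod_nonneg
        intro i _
        have := hH i
        positivity
      have hPD0 : 0 ≤ PD := by
        apply Finset.prod_nonneg
        intro i _
        have := hH i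
        positivity
      set R := (vs e H j' / vs e H (m + 1)) ^ (k + 1 - Mn - m - 2) with hR
      set F := (vs e H j' / vs e H (m + 1)) ^ b + vs e H j' ^ (-b) with hF
      set G := vs e H j' ^ (-(3 * ((k + 1 - Mn : ℕ) : ℝ))) with hG
      have hvm1 : 1 ≤ vs e H (m + 1) := h1v _ (by omega)
      have hR0 : 0 ≤ R := by positivity
      have hF0 : 0 ≤ F := add_nonneg (Real.rpow_nonneg (by positivity) _)
        (Real.rpow_nonneg (by positivity) _)
      have hG0 : 0 ≤ G := Real.rpow_nonneg (by positivity) _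
      refine (Finset.sum_le_sum hone).trans ?_
      rw [← Finset.mul_sum, Finset.sum_add_distrib, ← Finset.mul_sum, Finset.sum_const,
        nsmul_eq_mul]
      have hPj'pos := Phi_pos (b := b) h1v j' (by omega)
      calc C1 * PD * R * (F * ∑ z ∈ X.image (cut e j'), Wt s S Y z +
            ((X.image (cut e j')).card : ℝ) * G)
          ≤ C1 * PD * R * (F * (C * Q * Phi (k + 1 - Mn) b (vs e H) j') + (3 ^ (∑ i, n i) * Q) * G) := by
            gcongr
        _ = C1 * (Q * PD) * (C * (Phi (k + 1 - Mn) b (vs e H) j' * R * F) + 3 ^ (∑ i, n i) * (G * R)) := by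
            ring
        _ ≤ C1 * (Q * PD) * (C * (AA ^ ((k + 1 - Mn + 1) * (k + 1 - Mn) + 1) * Phi (k + 1 - Mn) b (vs e H) (m + 1)) +
              3 ^ (∑ i, n i) * (AA ^ (2 * (k + 1 - Mn)) * Phi (k + 1 - Mn) b (vs e H) (m + 1))) := by
            gcongr
        _ = (C1 * (C * AA ^ ((k0 + 1 - Mn + 1) * (k0 + 1 - Mn) + 1) + 3 ^ (∑ i, n i) * AA ^ (2 * (k0 + 1 - Mn)))) * (Q * PD) *
              Phi (k + 1 - Mn) b (vs e H) (m + 1) := by
            rw [← hk]
            ring
        _ ≤ (C + C1 * (C * AA ^ ((k0 + 1 - Mn + 1) * (k0 + 1 - Mn) + 1) + 3 ^ (∑ i, n i) * AA ^ (2 * (k0 + 1 - Mn)))) * (Q * PD) *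
              Phi (k + 1 - Mn) b (vs e H) (m + 1) := by
            gcongr
            linarith
        _ = _ := by rw [hQP]
  obtain ⟨C, hC, h⟩ := key k0
  refine ⟨A1, b, C, hA11, hb0, hb1, hC, fun k e H h1 h2 j hj hjM hc X hX => ?_⟩
  have hk : k = k0 := by rw [hk0, Fintype.card_congr e, Fintype.card_fin]
  exact h k e H h1 h2 j hj hjM (by omega) hc X hX

end Pool.Agent.Q68.ESB.CH
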