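import Mathlib

/-!
# Project ESB (job LOWB), part A: choice of the set `P` of small primes
-/

set_option autoImplicit false

namespace Pool.Agent.Q68.ESB.Lw

open Finset

/-- tails of the geometric series -/
theorem geo_tail (J : Finset ℕ) (k : ℕ) (h : ∀ j ∈ J, k ≤ j) :
    ∑ j ∈ J, ((1 : ℝ) / 2) ^ j ≤ 2 * (1 / 2) ^ k := by
  have h1 : ∑ j ∈ J, ((1 : ℝ) / 2) ^ j = ∑ i ∈ J.image (fun j => j - k), ((1 : ℝ) / 2) ^ (i + k) := by
    rw [Finset.sum_image]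
    · refine Finset.sum_congr rfl fun j hj => ?_
      rw [Nat.sub_add_cancel (h j hj)]
    · intro a ha b hb hab
      have h3 := h a ha
      have h4 := h b hb
      simp only at hab
      omega
  rw [h1]
  simp only [pow_add]
  rw [← Finset.sum_mul]
  have h11 : Summable (fun j : ℕ => ((1 : ℝ) / 2) ^ j) := summable_geometric_two
  have h10 : ∑ j ∈ J.image (fun j => j - k), ((1 : ℝ) / 2) ^ j ≤ 2 :=
    (h11.sum_le_tsum _ (fun j _ => by positivity)).trans (le_of_eq tsum_geometric_two)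
  exact mul_le_mul_of_nonneg_right h10 (by positivity)

section dy

variable {α : Type*} (w : α → ℕ) (C : ℝ) (hC : 0 < C)
  (hU : ∀ t : ℝ, 0 ≤ t → ∀ s : Finset α, (∀ x ∈ s, (w x : ℝ) ≤ t) → (s.card : ℝ) ≤ C * t)

include hU in
theorem dy_card (j : ℕ) (s : Finset α) (hs : ∀ x ∈ s, Nat.log 2 (w x) = j) :
    (s.card : ℝ) ≤ C * 2 ^ (j + 1) := by
  refine hU (2 ^ (j + 1)) (by positivity) s ?_
  intro x hx
  have h5 : w x < 2 ^ (j + 1) := by
    rw [← hs x hx]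
    exact Nat.lt_pow_succ_log_self (by norm_num) _
  exact_mod_cast h5.le

theorem dy_low (j : ℕ) (x : α) (h0 : 1 ≤ w x) (hx : Nat.log 2 (w x) = j) : (2 : ℝ) ^ j ≤ (w x : ℝ) := by
  have h5 : 2 ^ j ≤ w x := by
    rw [← hx]
    exact Nat.pow_log_le_self 2 (by omega)
  exact_mod_cast h5

include hC hU in
theorem dy_sq (k : ℕ) (s : Finset α) (hs : ∀ x ∈ s, 2 ^ k ≤ w x) :
    ∑ x ∈ s, 1 / ((w x : ℝ)) ^ 2 ≤ 4 * C * (1 / 2) ^ k := by
  classical
  set f : α → ℕ := fun x => Nat.log 2 (w x) with hf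
  rw [(Finset.sum_fiberwise_of_maps_to (fun x hx => Finset.mem_image_of_mem f hx) _).symm]
  have h1 : ∀ x ∈ s, 1 ≤ w x := fun x hx => le_trans Nat.one_le_two_pow (hs x hx)
  have h2 : ∀ j ∈ s.image f, ∑ x ∈ s with f x = j, 1 / ((w x : ℝ)) ^ 2 ≤ (2 * C) * (1 / 2) ^ j := by
    intro j _
    have h3 : ∀ x ∈ s.filter (fun x => f x = j), 1 / ((w x : ℝ)) ^ 2 ≤ 1 / ((2 : ℝ) ^ j) ^ 2 := by
      intro x hx
      rw [Finset.mem_filter] at hx
      apply one_div_le_one_div_of_le (by positivity)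
      exact pow_le_pow_left₀ (by positivity) (dy_low w j x (h1 x hx.1) hx.2) 2
    refine (Finset.sum_le_card_nsmul _ _ _ h3).trans ?_
    have h8 : ((s.filter (fun x => f x = j)).card : ℝ) ≤ C * 2 ^ (j + 1) :=
      dy_card w C hU j _ (fun x hx => (Finset.mem_filter.1 hx).2)
    rw [nsmul_eq_mul]
    have h9 : (0 : ℝ) < 2 ^ j := by positivity
    calc ((s.filter (fun x => f x = j)).card : ℝ) * (1 / ((2 : ℝ) ^ j) ^ 2) ≤
        (C * 2 ^ (j + 1)) * (1 / ((2 : ℝ) ^ j) ^ 2) := by gcongr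
      _ = (2 * C) * (1 / 2) ^ j := by
        rw [one_div_pow]
        field_simp
        ring
  refine (Finset.sum_le_sum h2).trans ?_
  rw [← Finset.mul_sum]
  have h10 := geo_tail (s.image f) k (by
    intro j hj
    obtain ⟨x, hx, rfl⟩ := Finset.mem_image.1 hj
    exact (Nat.le_log_iff_pow_le (by norm_num) (by have := h1 x hx; omega)).2 (hs x hx))
  calc 2 * C * ∑ j ∈ s.image f, ((1 : ℝ) / 2) ^ j ≤ 2 * C * (2 * (1 / 2) ^ k) := by gcongr
    _ = 4 * C * (1 / 2) ^ k := by ring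

include hC hU in
theorem dy_one (k : ℕ) (s : Finset α) (hs : ∀ x ∈ s, 1 ≤ w x ∧ w x < 2 ^ k) :
    ∑ x ∈ s, 1 / ((w x : ℝ)) ≤ 2 * C * k := by
  classical
  set f : α → ℕ := fun x => Nat.log 2 (w x) with hf
  have hmap : ∀ x ∈ s, f x ∈ Finset.range k := by
    intro x hx
    rw [Finset.mem_range]
    exact Nat.log_lt_of_lt_pow (by have := (hs x hx).1; omega) (hs x hx).2
  rw [(Finset.sum_fiberwise_of_maps_to hmap _).symm]
  have h2 : ∀ j ∈ Finset.range k, ∑ x ∈ s with f x = j, 1 / ((w x : ℝ)) ≤ 2 * C := by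
    intro j _
    have h3 : ∀ x ∈ s.filter (fun x => f x = j), 1 / ((w x : ℝ)) ≤ 1 / ((2 : ℝ) ^ j) := by
      intro x hx
      rw [Finset.mem_filter] at hx
      exact one_div_le_one_div_of_le (by positivity) (dy_low w j x (hs x hx.1).1 hx.2)
    refine (Finset.sum_le_card_nsmul _ _ _ h3).trans ?_
    have h8 : ((s.filter (fun x => f x = j)).card : ℝ) ≤ C * 2 ^ (j + 1) :=
      dy_card w C hU j _ (fun x hx => (Finset.mem_filter.1 hx).2)
    rw [nsmul_eq_mul]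
    have h9 : (0 : ℝ) < 2 ^ j := by positivity
    calc ((s.filter (fun x => f x = j)).card : ℝ) * (1 / ((2 : ℝ) ^ j)) ≤
        (C * 2 ^ (j + 1)) * (1 / ((2 : ℝ) ^ j)) := by gcongr
      _ = 2 * C := by
        field_simp
        ring
  refine (Finset.sum_le_sum h2).trans ?_
  rw [Finset.sum_const, Finset.card_range, nsmul_eq_mul]
  exact le_of_eq (by ring)

end dy

section V

variable {V : Type*} [DecidableEq V]

/-- the norm of a finite set of primes -/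
def nm (ν : V → ℕ) (A : Finset V) : ℕ := ∏ v ∈ A, ν v

/-- at most `C t` sets of norm at most `t` -/
def Up (ν : V → ℕ) (C : ℝ) : Prop :=
  ∀ t : ℝ, 0 ≤ t → ∀ 𝒜 : Finset (Finset V), (∀ A ∈ 𝒜, (nm ν A : ℝ) ≤ t) → (𝒜.card : ℝ) ≤ C * t

theorem up_sing {ν : V → ℕ} {C : ℝ} (hU : Up ν C) :
    ∀ t : ℝ, 0 ≤ t → ∀ s : Finset V, (∀ x ∈ s, (ν x : ℝ) ≤ t) → (s.card : ℝ) ≤ C * t := by
  intro t ht s hs
  have h := hU t ht (s.image (fun v => ({v} : Finset V))) (by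
    intro A hA
    obtain ⟨v, hv, rfl⟩ := Finset.mem_image.1 hA
    simpa [nm] using hs v hv)
  rwa [Finset.card_image_of_injective _ Finset.singleton_injective] at h

theorem sq_sum_le (ν : V → ℕ) (C : ℝ) (hC : 0 < C) (hU : Up ν C) (k : ℕ) (hk : 1 ≤ k) (s : Finset V)
    (hs : ∀ v ∈ s, 2 ≤ ν v ∧ ν v < 2 ^ k) : (∑ v ∈ s, 1 / (ν v : ℝ)) ^ 2 ≤ 12 * C * k := by
  have hkr : (1 : ℝ) ≤ (k : ℝ) := by exact_mod_cast hk
  have h1 : (∑ v ∈ s, 1 / (ν v : ℝ)) ^ 2 = ∑ p ∈ s.diag, 1 / ((ν p.1 : ℝ) * ν p.2) +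
      ∑ p ∈ s.offDiag, 1 / ((ν p.1 : ℝ) * ν p.2) := by
    rw [← Finset.sum_union (Finset.disjoint_diag_offDiag s), Finset.diag_union_offDiag, sq,
      Finset.sum_mul_sum, Finset.sum_product]
    refine Finset.sum_congr rfl fun v _ => Finset.sum_congr rfl fun w _ => ?_
    rw [one_div_mul_one_div]
  have h2 : ∑ p ∈ s.diag, 1 / ((ν p.1 : ℝ) * ν p.2) ≤ 4 * C := by
    rw [Finset.sum_diag]
    have h3 := dy_sq ν C hC (up_sing hU) 0 s (fun v hv => by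
      have := (hs v hv).1
      rw [pow_zero]
      omega)
    refine le_trans (le_of_eq ?_) (h3.trans (le_of_eq (by ring)))
    refine Finset.sum_congr rfl fun v _ => ?_
    rw [sq]
  obtain ⟨φ, hφ⟩ : ∃ φ : V × V → Finset V, φ = fun p => {p.1, p.2} := ⟨_, rfl⟩
  have hnm : ∀ p ∈ s.offDiag, nm ν (φ p) = ν p.1 * ν p.2 := by
    intro p hp
    rw [Finset.mem_offDiag] at hp
    rw [hφ]
    unfold nm
    rw [Finset.prod_pair hp.2.2]
  have h3 : ∑ p ∈ s.offDiag, 1 / ((ν p.1 : ℝ) * ν p.2) ≤ 8 * C * k := by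
    have h4 : ∑ p ∈ s.offDiag, 1 / ((ν p.1 : ℝ) * ν p.2) =
        ∑ A ∈ s.offDiag.image φ, ∑ p ∈ s.offDiag with φ p = A, 1 / ((ν p.1 : ℝ) * ν p.2) :=
      (Finset.sum_fiberwise_of_maps_to (fun x hx => Finset.mem_image_of_mem φ hx) _).symm
    have h5 : ∀ A ∈ s.offDiag.image φ, ∑ p ∈ s.offDiag with φ p = A, 1 / ((ν p.1 : ℝ) * ν p.2) ≤
        2 * (1 / (nm ν A : ℝ)) := by
      intro A hA
      obtain ⟨q, hq, rfl⟩ := Finset.mem_image.1 hA
      have h6 : ∑ p ∈ s.offDiag with φ p = φ q, 1 / ((ν p.1 : ℝ) * ν p.2) =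
          ∑ p ∈ s.offDiag with φ p = φ q, 1 / (nm ν (φ q) : ℝ) := by
        refine Finset.sum_congr rfl fun p hp => ?_
        rw [Finset.mem_filter] at hp
        rw [← hp.2, hnm p hp.1]
        push_cast
        rfl
      rw [h6, Finset.sum_const, nsmul_eq_mul]
      have h7 : (s.offDiag.filter (fun p => φ p = φ q)) ⊆ {q, q.swap} := by
        intro p hp
        rw [Finset.mem_filter, Finset.mem_offDiag] at hp
        obtain ⟨⟨_, _, hne⟩, he⟩ := hp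
        rw [hφ] at he
        simp only at he
        rw [Finset.mem_insert, Finset.mem_singleton]
        have a1 : p.1 ∈ ({q.1, q.2} : Finset V) := by rw [← he]; simp
        have a2 : p.2 ∈ ({q.1, q.2} : Finset V) := by rw [← he]; simp
        rw [Finset.mem_insert, Finset.mem_singleton] at a1 a2
        rcases a1 with a1 | a1 <;> rcases a2 with a2 | a2
        · exact absurd (a1.trans a2.symm) hne
        · left
          exact Prod.ext a1 a2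
        · right
          exact Prod.ext a1 a2
        · exact absurd (a1.trans a2.symm) hne
      have h8 : ((s.offDiag.filter (fun p => φ p = φ q)).card : ℝ) ≤ 2 := by
        exact_mod_cast (Finset.card_le_card h7).trans Finset.card_le_two
      exact mul_le_mul_of_nonneg_right h8 (by positivity)
    rw [h4]
    refine (Finset.sum_le_sum h5).trans ?_
    rw [← Finset.mul_sum]
    have h9 := dy_one (nm ν) C hC hU (2 * k) (s.offDiag.image φ) (by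
      intro A hA
      obtain ⟨q, hq, rfl⟩ := Finset.mem_image.1 hA
      rw [hnm q hq]
      rw [Finset.mem_offDiag] at hq
      obtain ⟨b1, b2⟩ := hs _ hq.1
      obtain ⟨b3, b4⟩ := hs _ hq.2.1
      refine ⟨?_, ?_⟩
      · exact Nat.one_le_iff_ne_zero.2 (Nat.mul_ne_zero (by omega) (by omega))
      · rw [two_mul, pow_add]
        exact Nat.mul_lt_mul'' b2 b4)
    push_cast at h9
    calc 2 * ∑ A ∈ s.offDiag.image φ, 1 / (nm ν A : ℝ) ≤ 2 * (2 * C * (2 * k)) := by gcongr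
      _ = 8 * C * k := by ring
  rw [h1]
  nlinarith

theorem exp_le_one_sub {x : ℝ} (h0 : 0 ≤ x) (h1 : x ≤ 1 / 2) : Real.exp (-(2 * x)) ≤ 1 - x := by
  have h2 : 1 + 2 * x ≤ Real.exp (2 * x) := by
    have := Real.add_one_le_exp (2 * x)
    linarith
  have h3 : (1 : ℝ) ≤ (1 - x) * (1 + 2 * x) := by nlinarith
  have h4 : 0 < Real.exp (2 * x) := Real.exp_pos _
  rw [Real.exp_neg, inv_le_iff_one_le_mul₀ h4]
  calc (1 : ℝ) ≤ (1 - x) * (1 + 2 * x) := h3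
    _ ≤ (1 - x) * Real.exp (2 * x) := by
      apply mul_le_mul_of_nonneg_left h2
      linarith

omit [DecidableEq V] in
theorem prod_ge (ν : V → ℕ) (h2 : ∀ v, 2 ≤ ν v) (P : Finset V) :
    Real.exp (-(2 * ∑ v ∈ P, 1 / (ν v : ℝ))) ≤ ∏ v ∈ P, (1 - 1 / (ν v : ℝ)) := by
  rw [Finset.mul_sum, ← Finset.sum_neg_distrib, Real.exp_sum]
  refine Finset.prod_le_prod (fun v _ => (Real.exp_pos _).le) fun v _ => ?_
  have h3 : (2 : ℝ) ≤ (ν v : ℝ) := by exact_mod_cast h2 v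
  refine exp_le_one_sub (by positivity) ?_
  exact one_div_le_one_div_of_le (by norm_num) h3

theorem exists_P (ν : V → ℕ) (h2 : ∀ v, 2 ≤ ν v) (hfin : ∀ n : ℕ, {v | ν v < n}.Finite) (C : ℝ)
    (hC : 0 < C) (hU : Up ν C) (P0 : Finset V) (N : ℕ) (c1 : ℝ) (hc1 : 0 < c1) :
    ∃ P : Finset V, P0 ⊆ P ∧ ∀ Q : Finset V, Disjoint Q P →
      ∑ v ∈ Q, 1 / (ν v : ℝ) ^ 2 ≤ c1 * (∏ v ∈ P, (1 - 1 / (ν v : ℝ))) ^ N := by
  obtain ⟨s0, hs0⟩ : ∃ s0 : ℝ, s0 = ∑ v ∈ P0, 1 / (ν v : ℝ) := ⟨_, rfl⟩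
  have hs00 : 0 ≤ s0 := by
    rw [hs0]
    exact Finset.sum_nonneg fun v _ => by positivity
  obtain ⟨K, hK⟩ : ∃ K : ℝ, K = 12 * C + 1 := ⟨_, rfl⟩
  have hK0 : 0 < K := by rw [hK]; positivity
  have hK2 : 12 * C ≤ K ^ 2 := by rw [hK]; nlinarith
  obtain ⟨D, hD⟩ : ∃ D : ℝ, D = 4 * C / c1 + 2 * N * s0 := ⟨_, rfl⟩
  have hD0 : 0 ≤ D := by rw [hD]; positivity
  obtain ⟨n, hn⟩ := exists_nat_ge (4 * N * K + 2 * D + 1)
  have hn1 : (1 : ℝ) ≤ (n : ℝ) := by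
    have : 0 ≤ 4 * (N : ℝ) * K := by positivity
    linarith
  have hn1' : 1 ≤ n := by exact_mod_cast hn1
  have hmain : D + 2 * N * K * n ≤ (n : ℝ) ^ 2 / 2 := by
    have h4 : (n : ℝ) * (4 * N * K + 2 * D + 1) ≤ (n : ℝ) * n :=
      mul_le_mul_of_nonneg_left hn (by positivity)
    nlinarith
  obtain ⟨S, hS⟩ : ∃ S : Finset V, S = (hfin (2 ^ (n ^ 2))).toFinset := ⟨_, rfl⟩
  have hmS : ∀ v, v ∈ S ↔ ν v < 2 ^ (n ^ 2) := by
    intro v
    rw [hS, Set.Finite.mem_toFinset]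
    rfl
  refine ⟨P0 ∪ S, Finset.subset_union_left, ?_⟩
  intro Q hQ
  have h3 : ∑ v ∈ Q, 1 / (ν v : ℝ) ^ 2 ≤ 4 * C * (1 / 2) ^ (n ^ 2) := by
    refine dy_sq ν C hC (up_sing hU) (n ^ 2) Q ?_
    intro v hv
    by_contra hlt
    push Not at hlt
    exact Finset.disjoint_left.1 hQ hv (Finset.mem_union_right _ ((hmS v).2 hlt))
  have h4 : ∑ v ∈ S, 1 / (ν v : ℝ) ≤ K * n := by
    have h5 := sq_sum_le ν C hC hU (n ^ 2) (Nat.one_le_pow _ _ (by omega)) S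
      (fun v hv => ⟨h2 v, (hmS v).1 hv⟩)
    push_cast at h5
    have h6 : (∑ v ∈ S, 1 / (ν v : ℝ)) ^ 2 ≤ (K * n) ^ 2 := by
      refine h5.trans ?_
      rw [mul_pow]
      exact mul_le_mul_of_nonneg_right hK2 (by positivity)
    exact le_of_sq_le_sq h6 (by positivity)
  have h7 : ∑ v ∈ P0 ∪ S, 1 / (ν v : ℝ) ≤ s0 + K * n := by
    have h8 : ∑ v ∈ P0 ∪ S, 1 / (ν v : ℝ) ≤ ∑ v ∈ P0, 1 / (ν v : ℝ) + ∑ v ∈ S, 1 / (ν v : ℝ) := by
      rw [← Finset.sum_union_inter]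
      have : 0 ≤ ∑ v ∈ P0 ∩ S, 1 / (ν v : ℝ) := Finset.sum_nonneg fun v _ => by positivity
      linarith
    rw [hs0]
    linarith
  have h9 : Real.exp (-(2 * (s0 + K * n))) ≤ ∏ v ∈ P0 ∪ S, (1 - 1 / (ν v : ℝ)) := by
    refine le_trans ?_ (prod_ge ν h2 (P0 ∪ S))
    apply Real.exp_le_exp.2
    linarith
  have h10 : Real.exp (-(2 * (s0 + K * n))) ^ N ≤ (∏ v ∈ P0 ∪ S, (1 - 1 / (ν v : ℝ))) ^ N :=
    pow_le_pow_left₀ (Real.exp_pos _).le h9 N
  have h11 : Real.exp (-(2 * (s0 + K * n))) ^ N = Real.exp (-(2 * N * (s0 + K * n))) := by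
    rw [← Real.exp_nat_mul]
    congr 1
    ring
  have h12 : ((1 : ℝ) / 2) ^ (n ^ 2) ≤ Real.exp (-((n : ℝ) ^ 2 / 2)) := by
    have h13 : (1 : ℝ) / 2 ≤ Real.exp (-(1 / 2)) := by
      have := Real.add_one_le_exp (-(1 / 2) : ℝ)
      linarith
    have h14 := pow_le_pow_left₀ (by norm_num) h13 (n ^ 2)
    refine h14.trans (le_of_eq ?_)
    rw [← Real.exp_nat_mul]
    congr 1
    push_cast
    ring
  have h15 : 4 * C ≤ c1 * Real.exp (4 * C / c1) := by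
    have h16 := Real.add_one_le_exp (4 * C / c1)
    have h17 : 4 * C / c1 ≤ Real.exp (4 * C / c1) := by linarith
    have h18 := mul_le_mul_of_nonneg_left h17 hc1.le
    rwa [mul_div_cancel₀ _ hc1.ne'] at h18
  calc ∑ v ∈ Q, 1 / (ν v : ℝ) ^ 2 ≤ 4 * C * (1 / 2) ^ (n ^ 2) := h3
    _ ≤ (c1 * Real.exp (4 * C / c1)) * Real.exp (-((n : ℝ) ^ 2 / 2)) :=
      mul_le_mul h15 h12 (by positivity) (by positivity)
    _ = c1 * Real.exp (4 * C / c1 - (n : ℝ) ^ 2 / 2) := by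
      rw [mul_assoc, ← Real.exp_add, sub_eq_add_neg]
    _ ≤ c1 * Real.exp (-(2 * N * (s0 + K * n))) := by
      apply mul_le_mul_of_nonneg_left _ hc1.le
      apply Real.exp_le_exp.2
      rw [hD] at hmain
      linarith
    _ ≤ c1 * (∏ v ∈ P0 ∪ S, (1 - 1 / (ν v : ℝ))) ^ N := by
      rw [← h11]
      exact mul_le_mul_of_nonneg_left h10 hc1.le

end V

end Pool.Agent.Q68.ESB.Lw
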