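import Pool.Agent.Q68.ESB.LowbA

/-!
# Project ESB (job LOWB), part B: many tuples of pairwise disjoint sets of primes, one box
-/

set_option autoImplicit false

namespace Pool.Agent.Q68.ESB.Lw

open Finset

variable {V : Type*} [DecidableEq V]

theorem nm_erase (ν : V → ℕ) (A : Finset V) (v : V) (hv : v ∈ A) : nm ν A = ν v * nm ν (A.erase v) :=
  (Finset.mul_prod_erase A ν hv).symm

/-- sets of norm at most `t` which contain `v` -/
theorem card_mem_le (ν : V → ℕ) (h2 : ∀ v, 2 ≤ ν v) (C : ℝ) (hU : Up ν C) (t : ℝ) (ht : 0 ≤ t)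
    (𝒜 : Finset (Finset V)) (h𝒜 : ∀ A ∈ 𝒜, (nm ν A : ℝ) ≤ t) (v : V) :
    ((𝒜.filter (fun A => v ∈ A)).card : ℝ) ≤ C * t * (1 / (ν v : ℝ)) := by
  have hv : (0 : ℝ) < (ν v : ℝ) := by
    have := h2 v
    exact_mod_cast (by omega : 0 < ν v)
  have h := hU (t / ν v) (by positivity) ((𝒜.filter (fun A => v ∈ A)).image (fun A => A.erase v)) (by
    intro B hB
    obtain ⟨A, hA, rfl⟩ := Finset.mem_image.1 hB
    rw [Finset.mem_filter] at hA
    have h3 := h𝒜 A hA.1
    rw [nm_erase ν A v hA.2] at h3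
    push_cast at h3
    rw [le_div_iff₀ hv]
    linarith)
  rw [Finset.card_image_of_injOn] at h
  · calc ((𝒜.filter (fun A => v ∈ A)).card : ℝ) ≤ C * (t / ν v) := h
      _ = C * t * (1 / (ν v : ℝ)) := by ring
  · intro A hA B hB hAB
    rw [Finset.mem_coe, Finset.mem_filter] at hA hB
    simp only at hAB
    rw [← Finset.insert_erase hA.2, hAB, Finset.insert_erase hB.2]

variable {ι : Type*} [Fintype ι] [DecidableEq ι]

/-- one box -/
theorem box (ν : V → ℕ) (h2 : ∀ v, 2 ≤ ν v) (C : ℝ) (hC : 0 < C) (hU : Up ν C)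
    (Good : Finset V → Prop) (P : Finset V) (a τ0 t0 B : ℝ) (ha : 0 < a) (hτ0 : 0 ≤ τ0) (ht0 : 1 ≤ t0)
    (hB : 1 ≤ B) (haB : 2 * C ≤ a * B)
    (hL : ∀ t, t0 ≤ t → ∃ 𝒜 : Finset (Finset V),
      (∀ A ∈ 𝒜, Good A ∧ Disjoint A P ∧ (nm ν A : ℝ) ≤ t) ∧ a * t ≤ 𝒜.card)
    (hP : ∀ Q : Finset V, Disjoint Q P → ∑ v ∈ Q, 1 / (ν v : ℝ) ^ 2 ≤ τ0)
    (hτ : ((Fintype.card ι : ℕ) : ℝ) ^ 2 * (C * B) ^ Fintype.card ι * τ0 ≤
      (1 / 2) * (a * B / 2) ^ Fintype.card ι)
    (t : ι → ℝ) (ht : ∀ i, t0 ≤ t i) :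
    ∃ 𝒯 : Finset (ι → Finset V), (∀ τ ∈ 𝒯, (∀ i, Good (τ i) ∧ t i < (nm ν (τ i) : ℝ) ∧
        (nm ν (τ i) : ℝ) ≤ B * t i) ∧ ∀ i j, i ≠ j → Disjoint (τ i) (τ j)) ∧
      (1 / 2) * (a * B / 2) ^ Fintype.card ι * ∏ i, t i ≤ 𝒯.card := by
  have htp : ∀ i, 0 < t i := fun i => lt_of_lt_of_le (lt_of_lt_of_le one_pos ht0) (ht i)
  have hBt : ∀ i, t0 ≤ B * t i := fun i => by nlinarith [ht i, htp i]
  choose 𝒜 h𝒜 hcard using fun i => hL (B * t i) (hBt i)
  obtain ⟨Sh, hSh⟩ : ∃ Sh : ι → Finset (Finset V), Sh = fun i => (𝒜 i).filter (fun A => t i < (nm ν A : ℝ)) :=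
    ⟨_, rfl⟩
  have hmSh : ∀ i A, A ∈ Sh i ↔ A ∈ 𝒜 i ∧ t i < (nm ν A : ℝ) := by
    intro i A
    rw [hSh]
    simp only [Finset.mem_filter]
  have hShlow : ∀ i, a * B / 2 * t i ≤ ((Sh i).card : ℝ) := by
    intro i
    have h3 : ((𝒜 i).card : ℝ) = (Sh i).card + ((𝒜 i).filter (fun A => ¬ t i < (nm ν A : ℝ))).card := by
      rw [hSh]
      exact_mod_cast (Finset.card_filter_add_card_filter_not (s := 𝒜 i) (fun A => t i < (nm ν A : ℝ))).symm
    have h4 : (((𝒜 i).filter (fun A => ¬ t i < (nm ν A : ℝ))).card : ℝ) ≤ C * t i := by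
      refine hU (t i) (htp i).le _ ?_
      intro A hA
      exact not_lt.1 (Finset.mem_filter.1 hA).2
    have h5 := hcard i
    nlinarith [htp i]
  have hShup : ∀ i, ((Sh i).card : ℝ) ≤ C * (B * t i) := by
    intro i
    refine hU _ (by have := htp i; positivity) _ ?_
    intro A hA
    exact (h𝒜 i A ((hmSh i A).1 hA).1).2.2
  obtain ⟨All, hAll⟩ : ∃ All : Finset (ι → Finset V), All = Fintype.piFinset Sh := ⟨_, rfl⟩
  have hmAll : ∀ τ, τ ∈ All ↔ ∀ i, τ i ∈ Sh i := by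
    intro τ
    rw [hAll, Fintype.mem_piFinset]
  have hAllcard : (a * B / 2) ^ Fintype.card ι * ∏ i, t i ≤ (All.card : ℝ) := by
    rw [hAll, Fintype.card_piFinset]
    push_cast
    have h3 : (a * B / 2) ^ Fintype.card ι * ∏ i, t i = ∏ i : ι, (a * B / 2 * t i) := by
      rw [Finset.prod_mul_distrib, Finset.prod_const, Finset.card_univ]
    rw [h3]
    refine Finset.prod_le_prod (fun i _ => ?_) fun i _ => hShlow i
    have := htp i
    positivity
  obtain ⟨Q, hQ⟩ : ∃ Q : Finset V, Q = Finset.univ.biUnion (fun i : ι => (Sh i).biUnion id) := ⟨_, rfl⟩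
  have hmQ : ∀ v, v ∈ Q ↔ ∃ i : ι, ∃ A ∈ Sh i, v ∈ A := by
    intro v
    rw [hQ]
    simp only [Finset.mem_biUnion, Finset.mem_univ, true_and, id]
  have hQP : Disjoint Q P := by
    rw [Finset.disjoint_left]
    intro v hv hvP
    obtain ⟨i, A, hA, hvA⟩ := (hmQ v).1 hv
    exact Finset.disjoint_left.1 (h𝒜 i A ((hmSh i A).1 hA).1).2.1 hvA hvP
  -- the tuples with a common prime
  obtain ⟨Bd, hBd⟩ : ∃ Bd : ι → ι → V → Finset (ι → Finset V), Bd = fun i j v =>
    All.filter (fun τ => v ∈ τ i ∧ v ∈ τ j) := ⟨_, rfl⟩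
  have hBdcard : ∀ i j, i ≠ j → ∀ v, ((Bd i j v).card : ℝ) ≤
      (C * B) ^ Fintype.card ι * (∏ l, t l) * (1 / (ν v : ℝ) ^ 2) := by
    intro i j hij v
    have h3 : Bd i j v ⊆ Fintype.piFinset (fun l =>
        if l ∈ ({i, j} : Finset ι) then (Sh l).filter (fun A => v ∈ A) else Sh l) := by
      intro τ hτ
      rw [hBd] at hτ
      simp only [Finset.mem_filter] at hτ
      obtain ⟨hτ1, hτi, hτj⟩ := hτ
      rw [Fintype.mem_piFinset]
      intro l
      have h4 := (hmAll τ).1 hτ1 l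
      split_ifs with hl
      · rw [Finset.mem_filter]
        refine ⟨h4, ?_⟩
        rw [Finset.mem_insert, Finset.mem_singleton] at hl
        rcases hl with rfl | rfl
        · exact hτi
        · exact hτj
      · exact h4
    have h4 : ((Bd i j v).card : ℝ) ≤ ∏ l : ι, ((if l ∈ ({i, j} : Finset ι) then
        (Sh l).filter (fun A => v ∈ A) else Sh l).card : ℝ) := by
      have h5 := Finset.card_le_card h3
      rw [Fintype.card_piFinset] at h5
      exact_mod_cast h5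
    refine h4.trans ?_
    have h5 : ∀ l ∈ (Finset.univ : Finset ι), (((if l ∈ ({i, j} : Finset ι) then
        (Sh l).filter (fun A => v ∈ A) else Sh l).card : ℕ) : ℝ) ≤
        (C * B * t l) * (if l ∈ ({i, j} : Finset ι) then 1 / (ν v : ℝ) else 1) := by
      intro l _
      split_ifs with hl
      · have h6 := card_mem_le ν h2 C hU (B * t l) (by have := htp l; positivity) (Sh l)
          (fun A hA => (h𝒜 l A ((hmSh l A).1 hA).1).2.2) v
        refine h6.trans (le_of_eq ?_)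
        ring
      · refine (hShup l).trans (le_of_eq ?_)
        ring
    refine (Finset.prod_le_prod (fun l _ => by positivity) h5).trans (le_of_eq ?_)
    rw [Finset.prod_mul_distrib, Finset.prod_mul_distrib, Finset.prod_const, Finset.card_univ]
    congr 1
    rw [Finset.prod_ite]
    simp only [Finset.prod_const, one_pow, mul_one]
    have h7 : (Finset.univ.filter (fun l : ι => l ∈ ({i, j} : Finset ι))) = {i, j} := by
      ext l
      simp
    rw [h7, Finset.card_pair hij, one_div_pow]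
  obtain ⟨Bad, hBad⟩ : ∃ Bad : Finset (ι → Finset V), Bad =
    (Finset.univ : Finset ι).offDiag.biUnion (fun p => Q.biUnion (fun v => Bd p.1 p.2 v)) := ⟨_, rfl⟩
  have hBadcard : (Bad.card : ℝ) ≤ (1 / 2) * (a * B / 2) ^ Fintype.card ι * ∏ i, t i := by
    have h3 : Bad.card ≤ ∑ p ∈ (Finset.univ : Finset ι).offDiag, ∑ v ∈ Q, (Bd p.1 p.2 v).card := by
      rw [hBad]
      refine Finset.card_biUnion_le.trans ?_
      exact Finset.sum_le_sum fun p _ => Finset.card_biUnion_le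
    have h4 : (Bad.card : ℝ) ≤ ∑ p ∈ (Finset.univ : Finset ι).offDiag, ∑ v ∈ Q, ((Bd p.1 p.2 v).card : ℝ) := by
      exact_mod_cast h3
    have hprod : 0 < ∏ l, t l := Finset.prod_pos fun l _ => htp l
    have h5 : ∀ p ∈ (Finset.univ : Finset ι).offDiag, ∑ v ∈ Q, ((Bd p.1 p.2 v).card : ℝ) ≤
        (C * B) ^ Fintype.card ι * (∏ l, t l) * τ0 := by
      intro p hp
      rw [Finset.mem_offDiag] at hp
      calc ∑ v ∈ Q, ((Bd p.1 p.2 v).card : ℝ) ≤
          ∑ v ∈ Q, (C * B) ^ Fintype.card ι * (∏ l, t l) * (1 / (ν v : ℝ) ^ 2) :=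
            Finset.sum_le_sum fun v _ => hBdcard p.1 p.2 hp.2.2 v
        _ = (C * B) ^ Fintype.card ι * (∏ l, t l) * ∑ v ∈ Q, 1 / (ν v : ℝ) ^ 2 := by
          rw [← Finset.mul_sum]
        _ ≤ (C * B) ^ Fintype.card ι * (∏ l, t l) * τ0 := by
          apply mul_le_mul_of_nonneg_left (hP Q hQP)
          positivity
    refine h4.trans ((Finset.sum_le_sum h5).trans ?_)
    rw [Finset.sum_const, nsmul_eq_mul]
    have h6 : (((Finset.univ : Finset ι).offDiag.card : ℕ) : ℝ) ≤ ((Fintype.card ι : ℕ) : ℝ) ^ 2 := by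
      have h7 : (Finset.univ : Finset ι).offDiag.card ≤ Fintype.card ι ^ 2 := by
        rw [Finset.offDiag_card, Finset.card_univ, sq]
        exact Nat.sub_le _ _
      exact_mod_cast h7
    calc (((Finset.univ : Finset ι).offDiag.card : ℕ) : ℝ) * ((C * B) ^ Fintype.card ι * (∏ l, t l) * τ0) ≤
        ((Fintype.card ι : ℕ) : ℝ) ^ 2 * ((C * B) ^ Fintype.card ι * (∏ l, t l) * τ0) := by
          apply mul_le_mul_of_nonneg_right h6
          positivity
      _ = (((Fintype.card ι : ℕ) : ℝ) ^ 2 * (C * B) ^ Fintype.card ι * τ0) * ∏ l, t l := by ring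
      _ ≤ ((1 / 2) * (a * B / 2) ^ Fintype.card ι) * ∏ l, t l :=
          mul_le_mul_of_nonneg_right hτ hprod.le
      _ = _ := by ring
  refine ⟨All \ Bad, ?_, ?_⟩
  · intro τ hτ'
    rw [Finset.mem_sdiff] at hτ'
    obtain ⟨hτ1, hτ2⟩ := hτ'
    have h3 := (hmAll τ).1 hτ1
    refine ⟨fun i => ?_, fun i j hij => ?_⟩
    · obtain ⟨h4, h5⟩ := (hmSh i _).1 (h3 i)
      obtain ⟨h6, -, h7⟩ := h𝒜 i _ h4
      exact ⟨h6, h5, h7⟩
    · by_contra hdis
      rw [Finset.disjoint_left] at hdis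
      push Not at hdis
      obtain ⟨v, hvi, hvj⟩ := hdis
      apply hτ2
      rw [hBad, Finset.mem_biUnion]
      refine ⟨(i, j), ?_, ?_⟩
      · rw [Finset.mem_offDiag]
        exact ⟨Finset.mem_univ _, Finset.mem_univ _, hij⟩
      · rw [Finset.mem_biUnion]
        refine ⟨v, (hmQ v).2 ⟨i, τ i, h3 i, hvi⟩, ?_⟩
        rw [hBd]
        simp only [Finset.mem_filter]
        exact ⟨hτ1, hvi, hvj⟩
  · have h3 : (All.card : ℝ) ≤ ((All \ Bad).card : ℝ) + Bad.card := by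
      have h4 : All.card ≤ (All \ Bad).card + Bad.card := by
        have := Finset.le_card_sdiff Bad All
        omega
      exact_mod_cast h4
    linarith

end Pool.Agent.Q68.ESB.Lw
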