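import Pool.Agent.Q68.ESB.LowbB

/-!
# Project ESB (job LOWB), part C: many tuples of pairwise disjoint sets of primes, all boxes
-/

set_option autoImplicit false

namespace Pool.Agent.Q68.ESB.Lw

open Finset

variable {V : Type*} [DecidableEq V] {ι : Type*} [Fintype ι] [DecidableEq ι]

theorem tuples (i₀ : ι) (ν : V → ℕ) (h2 : ∀ v, 2 ≤ ν v) (hfin : ∀ n : ℕ, {v | ν v < n}.Finite) (C : ℝ)
    (hC : 0 < C) (hU : Up ν C) (Good : Finset V → Prop) (c : ℝ) (hc : 0 < c) (P0 : Finset V)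
    (hL : ∀ P : Finset V, P0 ⊆ P → ∃ t0 : ℝ, 1 ≤ t0 ∧ ∀ t, t0 ≤ t → ∃ 𝒜 : Finset (Finset V),
      (∀ A ∈ 𝒜, Good A ∧ Disjoint A P ∧ (nm ν A : ℝ) ≤ t) ∧
        c * (∏ v ∈ P, (1 - 1 / (ν v : ℝ))) * t ≤ 𝒜.card) :
    ∃ c' X0 : ℝ, 0 < c' ∧ 1 ≤ X0 ∧ ∀ X : ℝ, X0 ≤ X → ∃ 𝒯 : Finset (ι → Finset V),
      (∀ τ ∈ 𝒯, (∀ i, Good (τ i) ∧ (τ i).Nonempty) ∧ (∀ i j, i ≠ j → Disjoint (τ i) (τ j)) ∧
        (∏ i, (nm ν (τ i) : ℝ)) ≤ X) ∧
      c' * X * (1 + Real.log X) ^ (Fintype.card ι - 1) ≤ 𝒯.card := by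
  obtain ⟨N, hN⟩ : ∃ N : ℕ, N = Fintype.card ι := ⟨_, rfl⟩
  have hN1 : 1 ≤ N := by
    rw [hN]
    exact Fintype.card_pos_iff.2 ⟨i₀⟩
  have hNr : (1 : ℝ) ≤ (N : ℝ) := by exact_mod_cast hN1
  have hNp : (0 : ℝ) < (N : ℝ) := by linarith
  obtain ⟨P, hP0, hP⟩ := exists_P ν h2 hfin C hC hU P0 N ((1 / 2) / (N : ℝ) ^ 2 * (c / (2 * C)) ^ N)
    (by positivity)
  obtain ⟨p, hp⟩ : ∃ p : ℝ, p = ∏ v ∈ P, (1 - 1 / (ν v : ℝ)) := ⟨_, rfl⟩
  have hp0 : 0 < p := by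
    rw [hp]
    refine Finset.prod_pos fun v _ => ?_
    have h3 : (2 : ℝ) ≤ ν v := by exact_mod_cast h2 v
    have h4 : 1 / (ν v : ℝ) ≤ 1 / 2 := one_div_le_one_div_of_le (by norm_num) h3
    linarith
  obtain ⟨t0, ht0, hL'⟩ := hL P hP0
  rw [← hp] at hP hL'
  obtain ⟨a, ha⟩ : ∃ a : ℝ, a = c * p := ⟨_, rfl⟩
  have ha0 : 0 < a := by rw [ha]; positivity
  rw [← ha] at hL'
  obtain ⟨B, hB⟩ := exists_nat_ge (2 * C / a + 2)
  have hB2 : (2 : ℝ) ≤ (B : ℝ) := by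
    have : 0 ≤ 2 * C / a := by positivity
    linarith
  have hB1 : (1 : ℝ) < (B : ℝ) := by linarith
  have hBp : (0 : ℝ) < (B : ℝ) := by linarith
  have haB : 2 * C ≤ a * B := by
    have h3 : 2 * C / a ≤ (B : ℝ) := by linarith
    rw [div_le_iff₀ ha0] at h3
    linarith
  obtain ⟨k0, hk0⟩ := pow_unbounded_of_one_lt t0 hB1
  have hlogB : 0 < Real.log (B : ℝ) := Real.log_pos hB1
  obtain ⟨u, hu⟩ : ∃ u : ℝ, u = 1 / ((N : ℝ) * Real.log B) := ⟨_, rfl⟩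
  have hu0 : 0 < u := by rw [hu]; positivity
  have huN : (N : ℝ) * Real.log B * u = 1 := by
    rw [hu]
    field_simp
  obtain ⟨Y0, hY0⟩ : ∃ Y0 : ℝ, Y0 = ((k0 : ℝ) + 2 + u) * 2 / u := ⟨_, rfl⟩
  have hY00 : 0 ≤ Y0 := by rw [hY0]; positivity
  have hτ : ((N : ℕ) : ℝ) ^ 2 * (C * B) ^ N * ((1 / 2) / (N : ℝ) ^ 2 * (c / (2 * C)) ^ N * p ^ N) ≤
      (1 / 2) * (a * B / 2) ^ N := by
    apply le_of_eq
    have h3 : (N : ℝ) ^ 2 * (C * B) ^ N * ((1 / 2) / (N : ℝ) ^ 2 * (c / (2 * C)) ^ N * p ^ N) =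
        (1 / 2) * ((N : ℝ) ^ 2 / (N : ℝ) ^ 2) * ((C * B) ^ N * (c / (2 * C)) ^ N * p ^ N) := by ring
    rw [h3, div_self (by positivity), ← mul_pow, ← mul_pow, mul_one]
    congr 2
    rw [ha]
    field_simp
  refine ⟨(1 / 2) * (a / 2) ^ N * (u / 4) ^ (N - 1), Real.exp Y0, by positivity,
    Real.one_le_exp hY00, ?_⟩
  intro X hX
  have hXp : 0 < X := lt_of_lt_of_le (Real.exp_pos _) hX
  have hlogX : Y0 ≤ Real.log X := by
    rw [← Real.log_exp Y0]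
    exact Real.log_le_log (Real.exp_pos _) hX
  obtain ⟨y, hy⟩ : ∃ y : ℝ, y = Real.log X := ⟨_, rfl⟩
  rw [← hy] at hlogX
  have hy0 : 0 ≤ y := hY00.trans hlogX
  have huy : 2 * ((k0 : ℝ) + 2 + u) ≤ u * y := by
    have h3 : u * Y0 ≤ u * y := mul_le_mul_of_nonneg_left hlogX hu0.le
    have h4 : u * Y0 = 2 * ((k0 : ℝ) + 2 + u) := by
      rw [hY0]
      field_simp
    linarith
  have hk0' : (0 : ℝ) ≤ (k0 : ℝ) := by positivity
  obtain ⟨L, hLd⟩ : ∃ L : ℕ, L = ⌊u * y - (k0 + 1)⌋₊ := ⟨_, rfl⟩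
  have hL1 : (L : ℝ) ≤ u * y - (k0 + 1) := by
    rw [hLd]
    exact Nat.floor_le (by linarith)
  have hL2 : (u / 4) * (1 + y) ≤ (L : ℝ) := by
    have h3 : u * y - (k0 + 1) < (L : ℝ) + 1 := by
      rw [hLd]
      exact Nat.lt_floor_add_one _
    linarith
  have hBX : (B : ℝ) ^ (N * (k0 + L + 1)) ≤ X := by
    have h3 : (B : ℝ) ^ (N * (k0 + L + 1)) = Real.exp ((N * (k0 + L + 1) : ℕ) * Real.log B) := by
      rw [Real.exp_nat_mul, Real.exp_log hBp]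
    rw [h3, ← Real.exp_log hXp, ← hy]
    apply Real.exp_le_exp.2
    push_cast
    have h4 : (k0 : ℝ) + L + 1 ≤ u * y := by linarith
    calc (N : ℝ) * (k0 + L + 1) * Real.log B = (N : ℝ) * Real.log B * (k0 + L + 1) := by ring
      _ ≤ (N : ℝ) * Real.log B * (u * y) := by
        apply mul_le_mul_of_nonneg_left h4
        positivity
      _ = (N : ℝ) * Real.log B * u * y := by ring
      _ = y := by rw [huN, one_mul]
  -- the boxes
  obtain ⟨K, hK⟩ : ∃ K : Finset (ι → ℕ), K = Fintype.piFinset (fun i : ι =>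
    if i = i₀ then ({0} : Finset ℕ) else Finset.range L) := ⟨_, rfl⟩
  have hmK : ∀ κ, κ ∈ K → κ i₀ = 0 ∧ ∀ i, i ≠ i₀ → κ i < L := by
    intro κ hκ
    rw [hK, Fintype.mem_piFinset] at hκ
    refine ⟨?_, fun i hi => ?_⟩
    · have := hκ i₀
      simpa using this
    · have := hκ i
      rw [if_neg hi, Finset.mem_range] at this
      exact this
  have hcardE : (Finset.univ.erase i₀ : Finset ι).card = N - 1 := by
    rw [Finset.card_erase_of_mem (Finset.mem_univ _), Finset.card_univ, hN]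
  have hKcard : K.card = L ^ (N - 1) := by
    rw [hK, Fintype.card_piFinset, ← Finset.mul_prod_erase Finset.univ _ (Finset.mem_univ i₀)]
    rw [if_pos rfl, Finset.card_singleton, one_mul]
    rw [Finset.prod_congr rfl (g := fun _ => L)]
    · rw [Finset.prod_const, hcardE]
    · intro i hi
      rw [if_neg (Finset.ne_of_mem_erase hi), Finset.card_range]
  obtain ⟨t, ht⟩ : ∃ t : (ι → ℕ) → ι → ℝ, t = fun κ i => if i = i₀ then
      X / ((B : ℝ) ^ N * ∏ j ∈ Finset.univ.erase i₀, (B : ℝ) ^ (k0 + κ j)) else (B : ℝ) ^ (k0 + κ i) :=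
    ⟨_, rfl⟩
  have hti₀ : ∀ κ, t κ i₀ = X / ((B : ℝ) ^ N * ∏ j ∈ Finset.univ.erase i₀, (B : ℝ) ^ (k0 + κ j)) := by
    intro κ
    rw [ht]
    simp only [if_true]
  have hti : ∀ κ i, i ≠ i₀ → t κ i = (B : ℝ) ^ (k0 + κ i) := by
    intro κ i hi
    rw [ht]
    simp only [if_neg hi]
  have htprod : ∀ κ, ∏ i, t κ i = X / (B : ℝ) ^ N := by
    intro κ
    rw [← Finset.mul_prod_erase Finset.univ _ (Finset.mem_univ i₀), hti₀]
    have h3 : ∏ i ∈ Finset.univ.erase i₀, t κ i = ∏ j ∈ Finset.univ.erase i₀, (B : ℝ) ^ (k0 + κ j) :=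
      Finset.prod_congr rfl fun i hi => hti κ i (Finset.ne_of_mem_erase hi)
    rw [h3]
    have h4 : (∏ j ∈ Finset.univ.erase i₀, (B : ℝ) ^ (k0 + κ j)) ≠ 0 :=
      Finset.prod_ne_zero_iff.2 fun j _ => by positivity
    field_simp
  have htge : ∀ κ ∈ K, ∀ i, t0 ≤ t κ i := by
    intro κ hκ i
    obtain ⟨hκ0, hκL⟩ := hmK κ hκ
    by_cases hi : i = i₀
    · rw [hi, hti₀, le_div_iff₀ (by positivity)]
      have h3 : ∏ j ∈ Finset.univ.erase i₀, (B : ℝ) ^ (k0 + κ j) ≤ ((B : ℝ) ^ (k0 + L)) ^ (N - 1) := by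
        rw [← hcardE, ← Finset.prod_const]
        refine Finset.prod_le_prod (fun j _ => by positivity) fun j hj => ?_
        exact pow_le_pow_right₀ hB1.le (by have := hκL j (Finset.ne_of_mem_erase hj); omega)
      have h4 : t0 ≤ (B : ℝ) ^ (k0 + L) := hk0.le.trans (pow_le_pow_right₀ hB1.le (by omega))
      calc t0 * ((B : ℝ) ^ N * ∏ j ∈ Finset.univ.erase i₀, (B : ℝ) ^ (k0 + κ j)) ≤
          (B : ℝ) ^ (k0 + L) * ((B : ℝ) ^ N * ((B : ℝ) ^ (k0 + L)) ^ (N - 1)) := by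
            apply mul_le_mul h4 _ (by positivity) (by positivity)
            exact mul_le_mul_of_nonneg_left h3 (by positivity)
        _ = (B : ℝ) ^ N * (((B : ℝ) ^ (k0 + L)) ^ (N - 1) * (B : ℝ) ^ (k0 + L)) := by ring
        _ = (B : ℝ) ^ (N * (k0 + L + 1)) := by
            rw [← pow_succ, Nat.sub_add_cancel hN1, ← pow_mul, ← pow_add]
            congr 1
            ring
        _ ≤ X := hBX
    · rw [hti κ i hi]
      exact hk0.le.trans (pow_le_pow_right₀ hB1.le (by omega))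
  have hbox : ∀ κ ∈ K, ∃ 𝒯 : Finset (ι → Finset V), (∀ τ ∈ 𝒯, (∀ i, Good (τ i) ∧
        t κ i < (nm ν (τ i) : ℝ) ∧ (nm ν (τ i) : ℝ) ≤ B * t κ i) ∧
        ∀ i j, i ≠ j → Disjoint (τ i) (τ j)) ∧
      (1 / 2) * (a * B / 2) ^ Fintype.card ι * ∏ i, t κ i ≤ 𝒯.card := by
    intro κ hκ
    exact box ν h2 C hC hU Good P a ((1 / 2) / (N : ℝ) ^ 2 * (c / (2 * C)) ^ N * p ^ N) t0 B ha0
      (by positivity) ht0 hB1.le haB hL' hP (by rw [← hN]; exact hτ) (t κ) (htge κ hκ)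
  choose! 𝒯 h𝒯 h𝒯c using hbox
  refine ⟨K.biUnion 𝒯, ?_, ?_⟩
  · intro τ hτ'
    rw [Finset.mem_biUnion] at hτ'
    obtain ⟨κ, hκ, hτκ⟩ := hτ'
    obtain ⟨h3, h4⟩ := h𝒯 κ hκ τ hτκ
    refine ⟨fun i => ⟨(h3 i).1, ?_⟩, h4, ?_⟩
    · rw [Finset.nonempty_iff_ne_empty]
      intro he
      have h5 := (h3 i).2.1
      rw [he] at h5
      unfold nm at h5
      rw [Finset.prod_empty, Nat.cast_one] at h5
      have h6 := htge κ hκ i
      linarith
    · calc (∏ i, (nm ν (τ i) : ℝ)) ≤ ∏ i : ι, (B * t κ i) :=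
            Finset.prod_le_prod (fun i _ => by positivity) fun i _ => (h3 i).2.2
        _ = X := by
          rw [Finset.prod_mul_distrib, Finset.prod_const, Finset.card_univ, ← hN, htprod κ]
          field_simp
  · have hdisj : ∀ κ ∈ K, ∀ κ' ∈ K, κ ≠ κ' → Disjoint (𝒯 κ) (𝒯 κ') := by
      intro κ hκ κ' hκ' hne
      rw [Finset.disjoint_left]
      intro τ h5 h6
      apply hne
      obtain ⟨h7, -⟩ := h𝒯 κ hκ τ h5
      obtain ⟨h8, -⟩ := h𝒯 κ' hκ' τ h6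
      funext i
      by_cases hi : i = i₀
      · rw [hi, (hmK κ hκ).1, (hmK κ' hκ').1]
      · have h9 := h7 i
        have h10 := h8 i
        rw [hti κ i hi] at h9
        rw [hti κ' i hi] at h10
        have h11 : (B : ℝ) ^ (k0 + κ i) < (B : ℝ) ^ (k0 + κ' i + 1) := by
          refine lt_of_lt_of_le h9.2.1 (h10.2.2.trans (le_of_eq ?_))
          ring
        have h12 : (B : ℝ) ^ (k0 + κ' i) < (B : ℝ) ^ (k0 + κ i + 1) := by
          refine lt_of_lt_of_le h10.2.1 (h9.2.2.trans (le_of_eq ?_))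
          ring
        have h13 := (pow_lt_pow_iff_right₀ hB1).1 h11
        have h14 := (pow_lt_pow_iff_right₀ hB1).1 h12
        omega
    rw [Finset.card_biUnion hdisj]
    push_cast
    have h3 : ∀ κ ∈ K, (1 / 2) * (a / 2) ^ N * X ≤ ((𝒯 κ).card : ℝ) := by
      intro κ hκ
      refine le_trans (le_of_eq ?_) (h𝒯c κ hκ)
      rw [htprod κ, ← hN]
      have h4 : (a * B / 2) ^ N = (a / 2) ^ N * (B : ℝ) ^ N := by
        rw [← mul_pow]
        congr 1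
        ring
      rw [h4]
      field_simp
    refine le_trans ?_ (Finset.card_nsmul_le_sum K _ _ h3)
    rw [nsmul_eq_mul, hKcard, ← hN, ← hy]
    push_cast
    have h5 : ((u / 4) * (1 + y)) ^ (N - 1) ≤ (L : ℝ) ^ (N - 1) :=
      pow_le_pow_left₀ (by positivity) hL2 _
    calc (1 / 2) * (a / 2) ^ N * (u / 4) ^ (N - 1) * X * (1 + y) ^ (N - 1) =
        ((u / 4) * (1 + y)) ^ (N - 1) * ((1 / 2) * (a / 2) ^ N * X) := by
          rw [mul_pow]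
          ring
      _ ≤ (L : ℝ) ^ (N - 1) * ((1 / 2) * (a / 2) ^ N * X) := by
          apply mul_le_mul_of_nonneg_right h5
          positivity

end Pool.Agent.Q68.ESB.Lw
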