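import Pool.Agent.Q161.ESB.Stm6
import Pool.Agent.Q237.ESN.REP
import Pool.Agent.Q151.ESB.IdlA
import Pool.Agent.Q68.ESB.LowbC

/-!
# Project ESB (job LOWB), part D: parities of valuations, and the counting hypotheses for number fields
-/

set_option autoImplicit false

namespace Pool.Agent.Q68.ESB.Lw

open NumberField IsDedekindDomain Finset Pool.Agent.Q161.ESB
open Pool.Agent.Q237.ESN (oddAt_finite ids mem_ids ids_le one_le_nm)
open Pool.Agent.Q151.ESB (prod_ideal_ne prod_ideal_inj norm_prod_ideal)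

open scoped Classical

section

variable {F : Type} [Field F] [NumberField F]

/-- the parity of the valuation -/
noncomputable def par (v : HeightOneSpectrum (𝓞 F)) (D : F) : ZMod 2 :=
  ((WithZero.log (v.valuation F D) : ℤ) : ZMod 2)

theorem oddAt_iff {v : HeightOneSpectrum (𝓞 F)} {D : F} (hD : D ≠ 0) : OddAt v D ↔ par v D = 1 := by
  have h0 : v.valuation F D ≠ 0 := (Valuation.ne_zero_iff _).2 hD
  have h1 : v.valuation F D = WithZero.exp (WithZero.log (v.valuation F D)) :=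
    (WithZero.exp_log h0).symm
  unfold par
  rw [ZMod.intCast_eq_one_iff_odd]
  constructor
  · rintro ⟨k, hk⟩
    rw [hk, WithZero.log_exp]
    exact ⟨k, by ring⟩
  · rintro ⟨k, hk⟩
    refine ⟨k, ?_⟩
    rw [h1, hk]
    congr 1
    ring

theorem par_mul {v : HeightOneSpectrum (𝓞 F)} {D D' : F} (hD : D ≠ 0) (hD' : D' ≠ 0) :
    par v (D * D') = par v D + par v D' := by
  have h0 : v.valuation F D ≠ 0 := (Valuation.ne_zero_iff _).2 hD
  have h1 : v.valuation F D' ≠ 0 := (Valuation.ne_zero_iff _).2 hD'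
  unfold par
  rw [map_mul, WithZero.log_mul h0 h1, Int.cast_add]

theorem par_one (v : HeightOneSpectrum (𝓞 F)) : par v (1 : F) = 0 := by
  unfold par
  rw [map_one, WithZero.log_one, Int.cast_zero]

theorem par_prod {ι : Type*} (v : HeightOneSpectrum (𝓞 F)) (s : Finset ι) (f : ι → F) (hf : ∀ i, f i ≠ 0) :
    par v (∏ i ∈ s, f i) = ∑ i ∈ s, par v (f i) := by
  induction s using Finset.induction_on with
  | empty => rw [Finset.prod_empty, Finset.sum_empty, par_one]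
  | insert a s ha ih =>
    rw [Finset.prod_insert ha, Finset.sum_insert ha,
      par_mul (hf a) (Finset.prod_ne_zero_iff.2 fun i _ => hf i), ih]

theorem par_cases (v : HeightOneSpectrum (𝓞 F)) (D : F) : par v D = 0 ∨ par v D = 1 := by
  generalize par v D = x
  revert x
  decide

theorem par_sq {v : HeightOneSpectrum (𝓞 F)} {D : F} (hD : D ≠ 0) (h : IsSquare D) : par v D = 0 := by
  obtain ⟨x, rfl⟩ := h
  have hx : x ≠ 0 := fun h => hD (by rw [h, mul_zero])
  rw [par_mul hx hx, CharTwo.add_self_eq_zero]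

theorem sum_symm {ι : Type*} [DecidableEq ι] (S S' : Finset ι) (f : ι → ZMod 2) :
    ∑ i ∈ S, f i + ∑ i ∈ S', f i = ∑ i ∈ symmDiff S S', f i := by
  have h1 : symmDiff S S' = (S \ S') ∪ (S' \ S) := rfl
  have h2 : Disjoint (S \ S') (S' \ S) := by
    rw [Finset.disjoint_left]
    intro x hx hx'
    rw [Finset.mem_sdiff] at hx hx'
    exact hx.2 hx'.1
  rw [h1, Finset.sum_union h2, ← Finset.sum_inter_add_sum_sdiff S S' f, ← Finset.sum_inter_add_sum_sdiff S' S f,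
    Finset.inter_comm S' S]
  have h3 : ∑ i ∈ S ∩ S', f i + ∑ i ∈ S ∩ S', f i = 0 := CharTwo.add_self_eq_zero _
  linear_combination h3

end

section cnt

variable (F : Type) [Field F] [NumberField F]

/-- the norm of a prime -/
noncomputable def nn (v : HeightOneSpectrum (𝓞 F)) : ℕ := Ideal.absNorm v.asIdeal

theorem nn_two (v : HeightOneSpectrum (𝓞 F)) : 2 ≤ nn F v := by
  unfold nn
  have h0 : Ideal.absNorm v.asIdeal ≠ 0 := by
    rw [Ne, Ideal.absNorm_eq_zero_iff]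
    exact v.ne_bot
  have h1 : Ideal.absNorm v.asIdeal ≠ 1 := by
    rw [Ne, Ideal.absNorm_eq_one_iff]
    exact v.isPrime.ne_top
  omega

theorem nn_fin (n : ℕ) : {v | nn F v < n}.Finite := by
  have h := Ideal.finite_setOfPred_absNorm_le (S := 𝓞 F) n
  refine Set.Finite.of_finite_image (f := fun v : HeightOneSpectrum (𝓞 F) => v.asIdeal) (h.subset ?_) ?_
  · rintro I ⟨v, hv, rfl⟩
    have hv' : nn F v < n := hv
    have hv2 : Ideal.absNorm v.asIdeal ≤ n := le_of_lt hv'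
    exact hv2
  · intro v _ w _ hvw
    exact HeightOneSpectrum.ext hvw

theorem nm_cast (A : Finset (HeightOneSpectrum (𝓞 F))) :
    (nm (nn F) A : ℝ) = ∏ v ∈ A, ((Ideal.absNorm v.asIdeal : ℕ) : ℝ) := by
  unfold nm nn
  push_cast
  rfl

theorem up : ∃ C : ℝ, 0 < C ∧ Up (nn F) C := by
  obtain ⟨C, hC, h⟩ := ids_le F
  refine ⟨C, hC, ?_⟩
  intro t ht 𝒜 h𝒜
  refine le_trans ?_ (h t ht)
  have h1 : 𝒜.card ≤ (ids F t).card := by
    refine Finset.card_le_card_of_injOn (fun A => ∏ v ∈ A, v.asIdeal) ?_ (prod_ideal_inj.injOn)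
    intro A hA
    rw [Finset.mem_coe, mem_ids]
    refine ⟨prod_ideal_ne A, ?_⟩
    rw [norm_prod_ideal, ← nm_cast]
    exact h𝒜 A hA
  exact_mod_cast h1

/-- the odd support of a nonzero element -/
def Gd (A : Finset (HeightOneSpectrum (𝓞 F))) : Prop := ∃ D : F, D ≠ 0 ∧ ∀ v, OddAt v D ↔ v ∈ A

variable {F} in
theorem oddNorm_eq {D : F} {A : Finset (HeightOneSpectrum (𝓞 F))} (h : ∀ v, OddAt v D ↔ v ∈ A) :
    oddNorm D = nm (nn F) A := by
  unfold Pool.Agent.Q161.ESN.oddNorm nm nn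
  simp only [h]
  exact finprod_mem_finset_eq_prod _ _

theorem lows (hA : S_LOWA) (hC : S_CLS) : ∃ (c : ℝ) (P0 : Finset (HeightOneSpectrum (𝓞 F))), 0 < c ∧
    ∀ P : Finset (HeightOneSpectrum (𝓞 F)), P0 ⊆ P → ∃ t0 : ℝ, 1 ≤ t0 ∧ ∀ t, t0 ≤ t →
      ∃ 𝒜 : Finset (Finset (HeightOneSpectrum (𝓞 F))),
      (∀ A ∈ 𝒜, Gd F A ∧ Disjoint A P ∧ (nm (nn F) A : ℝ) ≤ t) ∧
        c * (∏ v ∈ P, (1 - 1 / (nn F v : ℝ))) * t ≤ 𝒜.card := by
  obtain ⟨c, P0, hc, h⟩ := hA F
  obtain ⟨Cl, hCl⟩ := hC F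
  refine ⟨c / (Cl + 1), P0, by positivity, ?_⟩
  intro P hP
  obtain ⟨t0, ht0, h1⟩ := h P hP
  refine ⟨t0, ht0, ?_⟩
  intro t ht
  obtain ⟨𝒟, hT, hO, hcard⟩ := h1 t ht
  have hsup : ∀ D : F, ∃ A : Finset (HeightOneSpectrum (𝓞 F)), D ≠ 0 → ∀ v, OddAt v D ↔ v ∈ A := by
    intro D
    by_cases hD : D = 0
    · exact ⟨∅, fun h => absurd hD h⟩
    · refine ⟨(oddAt_finite D hD).toFinset, fun _ v => ?_⟩
      rw [Set.Finite.mem_toFinset]
      exact Iff.rfl
  choose sp hsp using hsup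
  refine ⟨𝒟.image sp, ?_, ?_⟩
  · intro A hA'
    obtain ⟨D, hD, rfl⟩ := Finset.mem_image.1 hA'
    have hD0 := hT.ne D hD
    refine ⟨⟨D, hD0, hsp D hD0⟩, ?_, ?_⟩
    · rw [Finset.disjoint_left]
      intro v hv hvP
      exact hO D hD v hvP ((hsp D hD0 v).2 hv)
    · rw [← oddNorm_eq (hsp D hD0)]
      exact hT.norm D hD
  · have h2 : 𝒟.card ≤ Cl * (𝒟.image sp).card := by
      refine Finset.card_le_mul_card_image 𝒟 Cl ?_
      intro A hA'
      refine hCl (A : Set (HeightOneSpectrum (𝓞 F))) _ ?_ ?_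
      · intro D hD
        rw [Finset.mem_filter] at hD
        have hD0 := hT.ne D hD.1
        refine ⟨hD0, fun v => ?_⟩
        rw [Finset.mem_coe, ← hD.2]
        exact hsp D hD0 v
      · intro D hD D' hD' hne
        rw [Finset.mem_filter] at hD hD'
        exact hT.dist D hD.1 D' hD'.1 hne
    have h3 : (𝒟.card : ℝ) ≤ (Cl + 1) * ((𝒟.image sp).card : ℝ) := by
      have h4 : (𝒟.card : ℝ) ≤ Cl * ((𝒟.image sp).card : ℝ) := by exact_mod_cast h2
      have h5 : (0 : ℝ) ≤ ((𝒟.image sp).card : ℝ) := by positivity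
      linarith
    have h6 : c * (∏ v ∈ P, (1 - 1 / (nn F v : ℝ))) * t ≤ (Cl + 1) * ((𝒟.image sp).card : ℝ) :=
      hcard.trans h3
    have h7 : c / (Cl + 1) * (∏ v ∈ P, (1 - 1 / (nn F v : ℝ))) * t =
        (c * (∏ v ∈ P, (1 - 1 / (nn F v : ℝ))) * t) / (Cl + 1) := by ring
    rw [h7, div_le_iff₀ (by positivity)]
    linarith

end cnt

end Pool.Agent.Q68.ESB.Lw
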